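import Mathlib
import Pool.Agent.H762R2.RtC

set_option autoImplicit false

open Set Filter Topology
open scoped OnePoint

namespace Run7.h979.SY

open Pool.Agent.H762R2.Rt Pool.Agent.Helper114.Herman Pool.Agent.Helper114.Konig

/-- If the image of a point is attracted by a sink, so is the point. -/
theorem sinks_of_image {X : Type*} [TopologicalSpace X] {g : X → X} (hg : Continuous g) {c : X}
    (h : Sinks g (g c)) : Sinks g c := by
  obtain ⟨z, n, hn, hz, ⟨U, hU, hUt⟩, hc⟩ := h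
  obtain ⟨m, rfl⟩ : ∃ m, n = m + 1 := ⟨n - 1, by omega⟩
  have key : ∀ w, Tendsto (fun k : ℕ => g^[(m + 1) * k] (g w)) atTop (𝓝 z) →
      Tendsto (fun k : ℕ => g^[(m + 1) * k] w) atTop (𝓝 (g^[m] z)) := by
    intro w hw
    have h1 := ((hg.iterate m).tendsto z).comp hw
    rw [← tendsto_add_atTop_iff_nat 1]
    refine h1.congr fun k => ?_
    simp only [Function.comp]
    rw [show (m + 1) * (k + 1) = m + ((m + 1) * k + 1) by ring, Function.iterate_add_apply g m,
      Function.iterate_succ_apply]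
  have hgz : g (g^[m] z) = z := by
    rw [← Function.iterate_succ_apply' g m z]; exact hz
  refine ⟨g^[m] z, m + 1, hn, ?_, ⟨g ⁻¹' U, ?_, ?_⟩, key c hc⟩
  · rw [Function.iterate_succ_apply, hgz]
  · exact (hg.continuousAt).preimage_mem_nhds (by rw [hgz]; exact hU)
  · intro w hw
    exact key w (hUt _ hw)

/-- If some forward image of a point is attracted by a sink, so is the point. -/
theorem sinks_of_iterate {X : Type*} [TopologicalSpace X] {g : X → X} (hg : Continuous g) {c : X}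
    (j : ℕ) (h : Sinks g (g^[j] c)) : Sinks g c := by
  induction j generalizing c with
  | zero => exact h
  | succ j ih =>
    rw [Function.iterate_succ_apply] at h
    exact sinks_of_image hg (ih h)

/-- Two discs, exchanged or kept, in which the map halves the modulus: every point of the discs is
attracted by a sink. -/
theorem two_discs {X : Type*} [TopologicalSpace X] {g : X → X} {ψ : Bool → ℂ → X}
    {σ : Bool → Bool} {h : Bool → ℂ → ℂ} {r : Bool → ℝ} (hr : ∀ i, 0 < r i)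
    (hcont : ∀ i, Continuous (ψ i)) (hopen : ∀ i, IsOpenMap (ψ i))
    (hconj : ∀ i x, ‖x‖ ≤ r i → g (ψ i x) = ψ (σ i) (h i x))
    (hm : ∀ i x, ‖x‖ ≤ r i → ‖h i x‖ ≤ r (σ i))
    (hl : ∀ i x, ‖x‖ ≤ r i → ‖h i x‖ ≤ (1 / 2) * ‖x‖)
    {i : Bool} {x : ℂ} (hx : ‖x‖ ≤ r i) : Sinks g (ψ i x) := by
  set j := σ (σ i) with hj
  have hjj : σ (σ j) = j := bool_two σ i
  set H : ℂ → ℂ := fun y => h (σ j) (h j y) with hH
  have hHm : ∀ y : ℂ, ‖y‖ ≤ r j → ‖H y‖ ≤ r j := by
    intro y hy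
    have := hm (σ j) (h j y) (hm j y hy)
    rwa [hjj] at this
  have hHl : ∀ y : ℂ, ‖y‖ ≤ r j → ‖H y‖ ≤ (1 / 4) * ‖y‖ := by
    intro y hy
    have h1 := hl (σ j) (h j y) (hm j y hy)
    have h2 := hl j y hy
    simp only [hH]
    linarith
  have hg2 : ∀ y : ℂ, ‖y‖ ≤ r j → g^[2] (ψ j y) = ψ j (H y) := by
    intro y hy
    rw [Function.iterate_succ_apply', Function.iterate_one, hconj j y hy,
      hconj (σ j) _ (hm j y hy), hjj]
  have hHk : ∀ k : ℕ, ∀ y : ℂ, ‖y‖ ≤ r j → ‖H^[k] y‖ ≤ r j ∧ ‖H^[k] y‖ ≤ (1 / 4) ^ k * ‖y‖ := by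
    intro k y hy
    induction k with
    | zero => simp [hy]
    | succ k ih =>
      rw [Function.iterate_succ_apply']
      refine ⟨hHm _ ih.1, (hHl _ ih.1).trans ?_⟩
      rw [pow_succ]
      linarith [ih.2]
  have hg2k : ∀ k : ℕ, ∀ y : ℂ, ‖y‖ ≤ r j → g^[2 * k] (ψ j y) = ψ j (H^[k] y) := by
    intro k y hy
    induction k with
    | zero => simp
    | succ k ih =>
      rw [show 2 * (k + 1) = 2 + 2 * k by ring, Function.iterate_add_apply, ih,
        hg2 _ (hHk k y hy).1, Function.iterate_succ_apply']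
  have hlim : ∀ y : ℂ, ‖y‖ ≤ r j → Tendsto (fun k : ℕ => g^[2 * k] (ψ j y)) atTop (𝓝 (ψ j 0)) := by
    intro y hy
    have h0 : Tendsto (fun k : ℕ => H^[k] y) atTop (𝓝 0) := by
      rw [tendsto_zero_iff_norm_tendsto_zero]
      have h3 : Tendsto (fun k : ℕ => (1 / 4 : ℝ) ^ k * ‖y‖) atTop (𝓝 0) := by
        simpa using (tendsto_pow_atTop_nhds_zero_of_lt_one (by norm_num : (0 : ℝ) ≤ 1 / 4)
          (by norm_num)).mul_const ‖y‖
      exact squeeze_zero (fun k => norm_nonneg _) (fun k => (hHk k y hy).2) h3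
    have h1 : Tendsto (fun k : ℕ => ψ j (H^[k] y)) atTop (𝓝 (ψ j 0)) :=
      ((hcont j).tendsto 0).comp h0
    refine h1.congr fun k => (hg2k k y hy).symm
  have hH0 : H 0 = 0 := by
    have := hHl 0 (by simpa using (hr j).le)
    simpa using this
  refine ⟨ψ j 0, 2, by norm_num, ?_, ⟨ψ j '' Metric.ball 0 (r j), ?_, ?_⟩, ?_⟩
  · rw [hg2 0 (by simpa using (hr j).le), hH0]
  · exact (hopen j _ Metric.isOpen_ball).mem_nhds ⟨0, by simpa using hr j, rfl⟩
  · rintro w ⟨y, hy, rfl⟩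
    exact hlim y (by simpa using (Metric.mem_ball.1 hy).le)
  · have e1 := hconj i x hx
    have e2 := hconj (σ i) (h i x) (hm i x hx)
    have h2 : g^[2] (ψ i x) = ψ j (h (σ i) (h i x)) := by
      rw [Function.iterate_succ_apply', Function.iterate_one, e1, e2]
    have h5 := hlim _ (hm (σ i) (h i x) (hm i x hx))
    rw [← tendsto_add_atTop_iff_nat 1]
    refine h5.congr fun k => ?_
    rw [show 2 * (k + 1) = 2 * k + 2 by ring, Function.iterate_add_apply, h2]

/-- The linear model of the orbit of a critical value, in the coordinate `log |z|`. -/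
noncomputable def yy (A k y : ℝ) : ℕ → ℝ
  | 0 => y
  | j + 1 => A + k * yy A k y j

/-- What the orbit argument needs to know about the map. -/
structure Frame (f : OnePoint ℂ → OnePoint ℂ) (w X A k ϑ : ℝ) : Prop where
  cont : Continuous f
  outer : ∀ z : ℂ, z ≠ 0 → w ≤ Real.log ‖z‖ → Sinks f (z : OnePoint ℂ)
  inner : ∀ z : ℂ, z ≠ 0 → Real.log ‖z‖ ≤ -X → Sinks f (z : OnePoint ℂ)
  step : ∀ z : ℂ, z ≠ 0 → Real.log ‖z‖ ≤ -w → ∃ v : ℂ, v ≠ 0 ∧ f (z : OnePoint ℂ) = v ∧
    |Real.log ‖v‖ - (A + k * Real.log ‖z‖)| ≤ ϑ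

/-- The orbit of a value is attracted when its linear model avoids a neighbourhood of `0`. -/
theorem orbit {f : OnePoint ℂ → OnePoint ℂ} {w X A k ϑ : ℝ} (hf : Frame f w X A k ϑ)
    (hk : 2 ≤ |k|) (hϑ : 0 ≤ ϑ) (hwX : w ≤ X) {N : ℕ} (hN : ϑ * |k| ^ N ≤ w) {v : ℂ}
    (hv : v ≠ 0) (h1 : ∀ j < N, 2 * w ≤ |yy A k (Real.log ‖v‖) j|)
    (h2 : X + w ≤ |yy A k (Real.log ‖v‖) N|) : Sinks f (v : OnePoint ℂ) := by
  have hk1 : 1 ≤ |k| := by linarith
  have hpow : ∀ j ≤ N, ϑ * (|k| ^ j - 1) ≤ w := by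
    intro j hj
    have h3 : |k| ^ j ≤ |k| ^ N := pow_le_pow_right₀ hk1 hj
    nlinarith
  have claim : ∀ j ≤ N, Sinks f (v : OnePoint ℂ) ∨ ∃ z : ℂ, z ≠ 0 ∧ f^[j] (v : OnePoint ℂ) = z ∧
      |Real.log ‖z‖ - yy A k (Real.log ‖v‖) j| ≤ ϑ * (|k| ^ j - 1) := by
    intro j
    induction j with
    | zero =>
      intro _
      refine Or.inr ⟨v, hv, rfl, ?_⟩
      simp [yy]
    | succ j ih =>
      intro hj
      rcases ih (by omega) with h | ⟨z, hz, hfz, hlz⟩
      · exact Or.inl h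
      have hy := h1 j (by omega)
      have hp := hpow j (by omega)
      have hlz' := abs_le.1 (hlz.trans hp)
      rcases le_abs'.1 hy with hy' | hy'
      · -- inner region
        obtain ⟨u, hu, hfu, hlu⟩ := hf.step z hz (by linarith [hlz'.2])
        refine Or.inr ⟨u, hu, ?_, ?_⟩
        · rw [Function.iterate_succ_apply', hfz, hfu]
        · have e1 : Real.log ‖u‖ - yy A k (Real.log ‖v‖) (j + 1) =
              (Real.log ‖u‖ - (A + k * Real.log ‖z‖)) +
                k * (Real.log ‖z‖ - yy A k (Real.log ‖v‖) j) := by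
            simp only [yy]; ring
          rw [e1]
          refine (abs_add_le _ _).trans ?_
          rw [abs_mul]
          have e2 : |k| * |Real.log ‖z‖ - yy A k (Real.log ‖v‖) j| ≤ |k| * (ϑ * (|k| ^ j - 1)) :=
            mul_le_mul_of_nonneg_left hlz (abs_nonneg _)
          have e3 : ϑ + |k| * (ϑ * (|k| ^ j - 1)) ≤ ϑ * (|k| ^ (j + 1) - 1) := by
            rw [pow_succ]; nlinarith
          linarith
      · left
        apply sinks_of_iterate hf.cont j
        rw [hfz]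
        exact hf.outer z hz (by linarith [hlz'.1])
  rcases claim N le_rfl with h | ⟨z, hz, hfz, hlz⟩
  · exact h
  have hlz' := abs_le.1 (hlz.trans (hpow N le_rfl))
  apply sinks_of_iterate hf.cont N
  rw [hfz]
  rcases le_abs'.1 h2 with hy' | hy'
  · exact hf.inner z hz (by linarith [hlz'.2])
  · exact hf.outer z hz (by linarith [hlz'.1])

end Run7.h979.SY
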