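import Mathlib
import Pool.Agent.Run7.h979.SY.Dyn

set_option autoImplicit false

open Set Filter Topology
open scoped OnePoint

namespace Run7.h979.SY

open Pool.Agent.H762R2.Rt Pool.Agent.Helper114.Herman Pool.Agent.Helper114.Konig

theorem log_dev {x x0 e : ℝ} (h0 : 0 < x0) (he : |x - x0| ≤ e) (he2 : e ≤ x0 / 2) :
    |Real.log x - Real.log x0| ≤ 2 * e / x0 := by
  obtain ⟨h1, h2⟩ := abs_le.1 he
  have hx : x0 / 2 ≤ x := by linarith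
  have hx0 : 0 < x := by linarith
  have he0 : 0 ≤ e := (abs_nonneg _).trans he
  rw [← Real.log_div hx0.ne' h0.ne', abs_le]
  constructor
  · have h3 := Real.log_le_sub_one_of_pos (div_pos h0 hx0)
    have h4 : Real.log (x / x0) = -Real.log (x0 / x) := by
      rw [← Real.log_inv, inv_div]
    have h5 : x0 / x - 1 ≤ 2 * e / x0 := by
      have : x0 / x - 1 = (x0 - x) / x := by field_simp
      rw [this, div_le_div_iff₀ hx0 h0]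
      nlinarith
    linarith
  · have h3 := Real.log_le_sub_one_of_pos (div_pos hx0 h0)
    have h5 : x / x0 - 1 ≤ 2 * e / x0 := by
      have : x / x0 - 1 = (x - x0) / x0 := by field_simp
      rw [this]
      apply div_le_div_of_nonneg_right _ h0.le
      linarith
    linarith

/-- Standing bounds on a coefficient sequence. -/
structure Cf (D : ℕ) (M : ℝ) (c : ℕ → ℂ) : Prop where
  le : ∀ k, ‖c k‖ ≤ M

theorem pol_dev {c : ℕ → ℂ} {D n : ℕ} {M w : ℝ} (hc : ∀ k, ‖c k‖ ≤ M) (hw : 0 ≤ w) {x : ℂ}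
    (hx : ‖x‖ ≤ Real.exp (-w)) :
    ‖pol c D (x ^ n) - c 0‖ ≤ ((D : ℝ) + 1) * D * M * Real.exp (-(n * w)) := by
  have hM : 0 ≤ M := (norm_nonneg _).trans (hc 0)
  have hpow : ‖x ^ n‖ ≤ Real.exp (-(n * w)) := by
    rw [norm_pow]
    calc ‖x‖ ^ n ≤ Real.exp (-w) ^ n := pow_le_pow_left₀ (norm_nonneg _) hx _
      _ = Real.exp (-(n * w)) := by rw [← Real.exp_nat_mul]; congr 1; ring
  have hone : ‖x ^ n‖ ≤ 1 := by
    refine hpow.trans ?_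
    rw [Real.exp_le_one_iff]
    have : 0 ≤ (n : ℝ) * w := by positivity
    linarith
  have h := pol_lip (D := D) hc hone (z := 0) (by simp)
  rw [pol_zero, sub_zero] at h
  exact h.trans (mul_le_mul_of_nonneg_left hpow (by positivity))

theorem pol_dev' {c : ℕ → ℂ} {D : ℕ} {M : ℝ} (hc : ∀ k, ‖c k‖ ≤ M) {y : ℂ} (hy : ‖y‖ ≤ 1) :
    ‖pol c D y - c 0‖ ≤ ((D : ℝ) + 1) * D * M * ‖y‖ := by
  have h := pol_lip (D := D) hc hy (z := 0) (by simp)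
  rwa [pol_zero, sub_zero] at h

theorem half_le {c : ℕ → ℂ} {D n : ℕ} {M w : ℝ} (hM : 1 ≤ M) (hc : ∀ k, ‖c k‖ ≤ M) (hw : 0 ≤ w)
    (h0 : M⁻¹ ≤ ‖c 0‖) (c1 : ((D : ℝ) + 1) * D * M * Real.exp (-(n * w)) ≤ M⁻¹ / 2)
    {x : ℂ} (hx : ‖x‖ ≤ Real.exp (-w)) :
    M⁻¹ / 2 ≤ ‖pol c D (x ^ n)‖ ∧ ‖pol c D (x ^ n)‖ ≤ 2 * M ∧
    |Real.log ‖pol c D (x ^ n)‖ - Real.log ‖c 0‖| ≤
      2 * (((D : ℝ) + 1) * D * M * M) * Real.exp (-(n * w)) := by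
  have hM0 : 0 < M := by linarith
  have hMi : 0 < M⁻¹ := inv_pos.2 hM0
  have hMi1 : M⁻¹ ≤ 1 := inv_le_one_of_one_le₀ hM
  have h := pol_dev (D := D) (n := n) hc hw hx
  have h2 := abs_norm_sub_norm_le (pol c D (x ^ n)) (c 0)
  have h3 := h2.trans h
  obtain ⟨h4, h5⟩ := abs_le.1 h3
  refine ⟨by linarith, by linarith [hc 0], ?_⟩
  have h6 := log_dev (x := ‖pol c D (x ^ n)‖) (x0 := ‖c 0‖) (by linarith) h3 (by linarith)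
  refine h6.trans ?_
  rw [div_le_iff₀ (by linarith)]
  have e0 : 0 ≤ ((D : ℝ) + 1) * D * M * Real.exp (-(n * w)) := by positivity
  have e1 : 1 ≤ M * ‖c 0‖ := by
    calc (1 : ℝ) = M * M⁻¹ := (mul_inv_cancel₀ hM0.ne').symm
      _ ≤ M * ‖c 0‖ := mul_le_mul_of_nonneg_left h0 hM0.le
  calc 2 * (((D : ℝ) + 1) * D * M * Real.exp (-(n * w))) =
        2 * (((D : ℝ) + 1) * D * M * Real.exp (-(n * w))) * 1 := by ring
    _ ≤ 2 * (((D : ℝ) + 1) * D * M * Real.exp (-(n * w))) * (M * ‖c 0‖) :=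
        mul_le_mul_of_nonneg_left e1 (by positivity)
    _ = _ := by ring

/-- The map near `∞`. -/
theorem outer_est {c d : ℕ → ℂ} {D n a b : ℕ} {M w : ℝ} (hM : 1 ≤ M) (hc : ∀ k, ‖c k‖ ≤ M)
    (hd : ∀ k, ‖d k‖ ≤ M) (hc0 : c 0 = 0) (hd0 : M⁻¹ ≤ ‖d 0‖) (hw : 0 ≤ w) (hn : 2 * b + 2 ≤ 2 * n)
    (hb : 2 * b ≤ n)
    (c1 : ((D : ℝ) + 1) * D * M * Real.exp (-(n * w)) ≤ M⁻¹ / 2)
    {u : ℂ} (hu : M⁻¹ ≤ ‖u‖) {x : ℂ} (hx : ‖x‖ ≤ Real.exp (-w)) :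
    pol d D (x ^ n) ≠ 0 ∧
    ‖x ^ a * pol c D (x ^ n) / (u * x ^ b * pol d D (x ^ n))‖ ≤
      2 * (((D : ℝ) + 1) * D * M * M ^ 2) * Real.exp (-(((n : ℝ) / 2 - 1) * w)) * ‖x‖ := by
  have hM0 : 0 < M := by linarith
  have hMi : 0 < M⁻¹ := inv_pos.2 hM0
  obtain ⟨g1, -, -⟩ := half_le (D := D) (n := n) hM hd hw hd0 c1 hx
  have hexp1 : Real.exp (-w) ≤ 1 := by rw [Real.exp_le_one_iff]; linarith
  have hx1 : ‖x‖ ≤ 1 := hx.trans hexp1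
  have hdne : pol d D (x ^ n) ≠ 0 := by
    intro h
    rw [h, norm_zero] at g1
    linarith
  refine ⟨hdne, ?_⟩
  by_cases hx0 : x = 0
  · subst hx0
    have : pol c D ((0 : ℂ) ^ n) = 0 := by
      rw [zero_pow (by omega), pol_zero, hc0]
    rw [this]
    simp
  have hxp : 0 < ‖x‖ := norm_pos_iff.2 hx0
  have hcn : ‖pol c D (x ^ n)‖ ≤ ((D : ℝ) + 1) * D * M * ‖x‖ ^ n := by
    have := pol_dev' (D := D) hc (y := x ^ n) (by rw [norm_pow]; exact pow_le_one₀ (norm_nonneg _) hx1)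
    rwa [hc0, sub_zero, norm_pow] at this
  have hu0 : 0 < ‖u‖ := lt_of_lt_of_le hMi hu
  rw [norm_div, norm_mul, norm_mul, norm_mul, norm_pow, norm_pow]
  have hden : 0 < ‖u‖ * ‖x‖ ^ b * ‖pol d D (x ^ n)‖ := by
    have := norm_pos_iff.2 hdne
    positivity
  rw [div_le_iff₀ hden]
  obtain ⟨m, hm⟩ : ∃ m, n = b + (m + 1) := ⟨n - b - 1, by omega⟩
  have hxm : ‖x‖ ^ m ≤ Real.exp (-(((n : ℝ) / 2 - 1) * w)) := by
    calc ‖x‖ ^ m ≤ Real.exp (-w) ^ m := pow_le_pow_left₀ hxp.le hx _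
      _ = Real.exp (m * (-w)) := by rw [← Real.exp_nat_mul]
      _ ≤ _ := by
        rw [Real.exp_le_exp]
        have h1 : (n : ℝ) = b + (m + 1) := by exact_mod_cast hm
        have h2 : 2 * (b : ℝ) ≤ n := by exact_mod_cast hb
        nlinarith
  set L := ((D : ℝ) + 1) * D * M with hL
  have hL0 : 0 ≤ L := by positivity
  set E := Real.exp (-(((n : ℝ) / 2 - 1) * w)) with hE
  have hE0 : 0 < E := Real.exp_pos _
  have hxa : ‖x‖ ^ a ≤ 1 := pow_le_one₀ (norm_nonneg _) hx1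
  calc ‖x‖ ^ a * ‖pol c D (x ^ n)‖ ≤ 1 * (L * ‖x‖ ^ n) :=
        mul_le_mul hxa hcn (norm_nonneg _) zero_le_one
    _ = L * (‖x‖ ^ b * (‖x‖ ^ m * ‖x‖)) := by rw [hm, pow_add, pow_succ]; ring
    _ ≤ L * (‖x‖ ^ b * (E * ‖x‖)) := by gcongr
    _ = 2 * (L * M ^ 2) * E * ‖x‖ * (M⁻¹ * ‖x‖ ^ b * (M⁻¹ / 2)) := by
        field_simp
    _ ≤ 2 * (L * M ^ 2) * E * ‖x‖ * (‖u‖ * ‖x‖ ^ b * ‖pol d D (x ^ n)‖) := by
        gcongr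

/-- The map near `0`. -/
theorem inner_est {c d : ℕ → ℂ} {D n a : ℕ} {M w : ℝ} (hM : 1 ≤ M) (hc : ∀ k, ‖c k‖ ≤ M)
    (hd : ∀ k, ‖d k‖ ≤ M) (hc0 : M⁻¹ ≤ ‖c 0‖) (hd0 : M⁻¹ ≤ ‖d 0‖) (hw : 0 ≤ w) (ha : 2 ≤ a)
    (c1 : ((D : ℝ) + 1) * D * M * Real.exp (-(n * w)) ≤ M⁻¹ / 2)
    {u : ℂ} (hu : M⁻¹ ≤ ‖u‖) {x : ℂ} (hx : ‖x‖ ≤ Real.exp (-w)) :
    pol d D (x ^ n) ≠ 0 ∧
    ‖x ^ a * pol c D (x ^ n) / (u * pol d D (x ^ n))‖ ≤ 4 * M ^ 3 * ‖x‖ ^ 2 := by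
  have hM0 : 0 < M := by linarith
  have hMi : 0 < M⁻¹ := inv_pos.2 hM0
  obtain ⟨g1, -, -⟩ := half_le (D := D) (n := n) hM hd hw hd0 c1 hx
  obtain ⟨-, g2, -⟩ := half_le (D := D) (n := n) hM hc hw hc0 c1 hx
  have hexp1 : Real.exp (-w) ≤ 1 := by rw [Real.exp_le_one_iff]; linarith
  have hx1 : ‖x‖ ≤ 1 := hx.trans hexp1
  have hdne : pol d D (x ^ n) ≠ 0 := by
    intro h
    rw [h, norm_zero] at g1
    linarith
  refine ⟨hdne, ?_⟩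
  have hu0 : 0 < ‖u‖ := lt_of_lt_of_le hMi hu
  rw [norm_div, norm_mul, norm_mul, norm_pow]
  have hden : 0 < ‖u‖ * ‖pol d D (x ^ n)‖ := by
    have := norm_pos_iff.2 hdne
    positivity
  rw [div_le_iff₀ hden]
  have hxa : ‖x‖ ^ a ≤ ‖x‖ ^ 2 := pow_le_pow_of_le_one (norm_nonneg _) hx1 ha
  calc ‖x‖ ^ a * ‖pol c D (x ^ n)‖ ≤ ‖x‖ ^ 2 * (2 * M) :=
        mul_le_mul hxa g2 (norm_nonneg _) (by positivity)
    _ = 4 * M ^ 3 * ‖x‖ ^ 2 * (M⁻¹ * (M⁻¹ / 2)) := by field_simp; ring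
    _ ≤ 4 * M ^ 3 * ‖x‖ ^ 2 * (‖u‖ * ‖pol d D (x ^ n)‖) := by
        gcongr

end Run7.h979.SY
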