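import Mathlib
import Pool.Agent.Run7.h979.SY.Est

set_option autoImplicit false

open Set Filter Topology
open scoped OnePoint

namespace Run7.h979.SY

open Pool.Agent.H762R2.Rt Pool.Agent.Helper114.Herman Pool.Agent.Helper114.Konig

/-- The class of pairs `(P, Q)`: lowest terms, coefficients at most `M`, values at `0` at least
`1 / M`, and unequal degrees, the larger one `D` with leading coefficient at least `1 / M`. -/
structure Cl (D : ℕ) (M : ℝ) (P Q : Polynomial ℂ) : Prop where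
  cop : IsCoprime P Q
  pM : ∀ k, ‖P.coeff k‖ ≤ M
  qM : ∀ k, ‖Q.coeff k‖ ≤ M
  p0 : M⁻¹ ≤ ‖P.coeff 0‖
  q0 : M⁻¹ ≤ ‖Q.coeff 0‖
  inf : (P.natDegree = D ∧ Q.natDegree < D ∧ M⁻¹ ≤ ‖P.coeff D‖) ∨
    (Q.natDegree = D ∧ P.natDegree < D ∧ M⁻¹ ≤ ‖Q.coeff D‖)

/-- Numerator. -/
noncomputable def nu (a n : ℕ) (s : ℂ) (P : Polynomial ℂ) : Polynomial ℂ :=
  Polynomial.C s * Polynomial.X ^ a * Polynomial.expand ℂ n P

/-- Denominator. -/
noncomputable def de (b n : ℕ) (Q : Polynomial ℂ) : Polynomial ℂ :=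
  Polynomial.X ^ b * Polynomial.expand ℂ n Q

/-- The conditions on `n` and the half width `w`. -/
structure Cond (D : ℕ) (M : ℝ) (n : ℕ) (w : ℝ) : Prop where
  w0 : 0 < w
  c1 : ((D : ℝ) + 1) * D * M * Real.exp (-(n * w)) ≤ M⁻¹ / 2
  c2 : 2 * (((D : ℝ) + 1) * D * M * M ^ 2) * Real.exp (-(((n : ℝ) / 2 - 1) * w)) ≤ 1 / (8 * M ^ 3)
  c4 : w ≤ Real.log (8 * M ^ 3)

theorem nu_eval (a n : ℕ) (s : ℂ) (P : Polynomial ℂ) (z : ℂ) :
    (nu a n s P).eval z = s * z ^ a * P.eval (z ^ n) := by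
  unfold nu
  rw [Polynomial.eval_mul, Polynomial.eval_mul, Polynomial.eval_C, Polynomial.eval_pow,
    Polynomial.eval_X, Polynomial.expand_eval]

theorem de_eval (b n : ℕ) (Q : Polynomial ℂ) (z : ℂ) :
    (de b n Q).eval z = z ^ b * Q.eval (z ^ n) := by
  unfold de
  rw [Polynomial.eval_mul, Polynomial.eval_pow, Polynomial.eval_X, Polynomial.expand_eval]

theorem pol_coeff {P : Polynomial ℂ} {D : ℕ} (hP : P.natDegree ≤ D) (y : ℂ) :
    pol P.coeff D y = P.eval y := by
  rw [← hom_one_right, hom_ne hP one_ne_zero, one_pow, one_mul, div_one]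

theorem pol_rev {P : Polynomial ℂ} {D : ℕ} (hP : P.natDegree ≤ D) {y : ℂ} (hy : y ≠ 0) :
    pol (fun k => P.coeff (D - k)) D y = y ^ D * P.eval y⁻¹ := by
  rw [← hom_one_left, hom_ne hP hy, one_div]

section
variable {D : ℕ} {M : ℝ} {P Q : Polynomial ℂ}

theorem Cl.P_ne (h : Cl D M P Q) (hM : 1 ≤ M) : P ≠ 0 := by
  intro h0
  have := h.p0
  rw [h0, Polynomial.coeff_zero, norm_zero] at this
  have := inv_pos.2 (by linarith : 0 < M)
  linarith

theorem Cl.Q_ne (h : Cl D M P Q) (hM : 1 ≤ M) : Q ≠ 0 := by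
  intro h0
  have := h.q0
  rw [h0, Polynomial.coeff_zero, norm_zero] at this
  have := inv_pos.2 (by linarith : 0 < M)
  linarith

theorem Cl.Pd (h : Cl D M P Q) : P.natDegree ≤ D := by
  rcases h.inf with h | h <;> omega

theorem Cl.Qd (h : Cl D M P Q) : Q.natDegree ≤ D := by
  rcases h.inf with h | h <;> omega

theorem Cl.mono {N : ℝ} (h : Cl D M P Q) (hM : 0 < M) (hN : M ≤ N) : Cl D N P Q := by
  have : N⁻¹ ≤ M⁻¹ := inv_anti₀ hM hN
  refine ⟨h.cop, fun k => (h.pM k).trans hN, fun k => (h.qM k).trans hN, this.trans h.p0,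
    this.trans h.q0, ?_⟩
  rcases h.inf with ⟨h1, h2, h3⟩ | ⟨h1, h2, h3⟩
  · exact Or.inl ⟨h1, h2, this.trans h3⟩
  · exact Or.inr ⟨h1, h2, this.trans h3⟩

theorem X_coprime {R : Polynomial ℂ} (h : R.coeff 0 ≠ 0) {n : ℕ} (hn : 0 < n) :
    IsCoprime (Polynomial.X : Polynomial ℂ) (Polynomial.expand ℂ n R) := by
  rw [Polynomial.irreducible_X.coprime_iff_not_dvd, Polynomial.X_dvd_iff,
    Polynomial.coeff_zero_eq_eval_zero, Polynomial.expand_eval, zero_pow hn.ne',
    ← Polynomial.coeff_zero_eq_eval_zero]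
  exact h

theorem Cl.coprime (h : Cl D M P Q) (hM : 1 ≤ M) {a b n : ℕ} (hab : a = 0 ∨ b = 0) (hn : 0 < n)
    {s : ℂ} (hs : s ≠ 0) : IsCoprime (nu a n s P) (de b n Q) := by
  have hMi := inv_pos.2 (by linarith : 0 < M)
  have hp : P.coeff 0 ≠ 0 := norm_pos_iff.1 (lt_of_lt_of_le hMi h.p0)
  have hq : Q.coeff 0 ≠ 0 := norm_pos_iff.1 (lt_of_lt_of_le hMi h.q0)
  have hu : IsUnit (Polynomial.C s) := Polynomial.isUnit_C.2 (isUnit_iff_ne_zero.2 hs)
  have h1 : IsCoprime (Polynomial.expand ℂ n P) (Polynomial.expand ℂ n Q) := h.cop.map _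
  have hXQ := X_coprime hq hn
  have hXP := X_coprime hp hn
  unfold nu de
  rw [mul_assoc]
  refine (isCoprime_mul_unit_left_left hu _ _).2 ?_
  rcases hab with rfl | rfl
  · rw [pow_zero, one_mul]
    exact IsCoprime.mul_right (hXP.symm.pow_right) h1
  · rw [pow_zero, one_mul]
    exact IsCoprime.mul_left (hXQ.pow_left) h1

theorem nu_natDegree (hP : P ≠ 0) {a n : ℕ} (hn : 0 < n) {s : ℂ} (hs : s ≠ 0) :
    (nu a n s P).natDegree = a + P.natDegree * n := by
  unfold nu
  have h1 : Polynomial.expand ℂ n P ≠ 0 := (Polynomial.expand_ne_zero hn).2 hP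
  rw [mul_assoc, Polynomial.natDegree_C_mul hs,
    Polynomial.natDegree_mul (pow_ne_zero _ Polynomial.X_ne_zero) h1, Polynomial.natDegree_X_pow,
    Polynomial.natDegree_expand]

theorem de_natDegree (hQ : Q ≠ 0) {b n : ℕ} (hn : 0 < n) :
    (de b n Q).natDegree = b + Q.natDegree * n := by
  unfold de
  have h1 : Polynomial.expand ℂ n Q ≠ 0 := (Polynomial.expand_ne_zero hn).2 hQ
  rw [Polynomial.natDegree_mul (pow_ne_zero _ Polynomial.X_ne_zero) h1, Polynomial.natDegree_X_pow,
    Polynomial.natDegree_expand]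

/-- All that the orbit argument needs. -/
theorem frame (h : Cl D M P Q) (hM : 1 ≤ M) {a b n : ℕ} (hab : a = 0 ∨ b = 0) (h2 : 2 ≤ a + b)
    (hn : 2 * (a + b) ≤ n) {s : ℂ} (hs1 : M⁻¹ ≤ ‖s‖) (hs2 : ‖s‖ ≤ M) {w : ℝ}
    (hc : Cond D M n w) {f : OnePoint ℂ → OnePoint ℂ} (hf : IsRat f (nu a n s P) (de b n Q)) :
    Frame f w (Real.log (8 * M ^ 3))
      (Real.log ‖s‖ + (Real.log ‖P.coeff 0‖ - Real.log ‖Q.coeff 0‖)) ((a : ℝ) - b)
      (4 * (((D : ℝ) + 1) * D * M * M) * Real.exp (-(n * w))) ∧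
    Sinks f ((0 : ℂ) : OnePoint ℂ) ∧ Sinks f ∞ := by
  have hM0 : 0 < M := by linarith
  have hMi : 0 < M⁻¹ := inv_pos.2 hM0
  have hn0 : 0 < n := by omega
  have hs0' : 0 < ‖s‖ := lt_of_lt_of_le hMi hs1
  have hs0 : s ≠ 0 := norm_pos_iff.1 hs0'
  have hsi : M⁻¹ ≤ ‖s⁻¹‖ := by rw [norm_inv]; exact inv_anti₀ hs0' hs2
  have hP0 := h.P_ne hM
  have hQ0 := h.Q_ne hM
  have hPd := h.Pd
  have hQd := h.Qd
  have hw0 := hc.w0
  -- the formula for the map
  set d := max (nu a n s P).natDegree (de b n Q).natDegree with hd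
  have hnd := nu_natDegree (a := a) hP0 hn0 hs0
  have hdd := de_natDegree (b := b) hQ0 hn0
  have hd0 : 0 < d := by
    have h3 : (nu a n s P).natDegree ≤ d := le_max_left _ _
    have h4 : (de b n Q).natDegree ≤ d := le_max_right _ _
    omega
  have hfz : ∀ z : ℂ, f (z : OnePoint ℂ) = pr (s * z ^ a * P.eval (z ^ n)) (z ^ b * Q.eval (z ^ n)) := by
    intro z
    have h3 := rat_formula hf hd hd0 (u := z) (v := 1) (Or.inr one_ne_zero)
    rw [pr_one, hom_ne (le_max_left _ _) one_ne_zero, hom_ne (le_max_right _ _) one_ne_zero,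
      one_pow, one_mul, one_mul, div_one, nu_eval, de_eval] at h3
    exact h3
  have hfi : f ∞ = pr ((nu a n s P).coeff d) ((de b n Q).coeff d) := by
    have h3 := rat_formula hf hd hd0 (u := 1) (v := 0) (Or.inl one_ne_zero)
    rwa [pr_zero, hom_zero, hom_zero, one_pow, mul_one, mul_one] at h3
  have hinv : ∀ x : ℂ, x ≠ 0 → f (sinv (x : OnePoint ℂ)) =
      pr (s * x ^ b * pol (fun k => P.coeff (D - k)) D (x ^ n))
        (x ^ a * pol (fun k => Q.coeff (D - k)) D (x ^ n)) := by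
    intro x hx
    rw [sinv_coe hx, hfz, pol_rev hPd (pow_ne_zero n hx), pol_rev hQd (pow_ne_zero n hx),
      ← pr_smul (c := x ^ a * x ^ b * (x ^ n) ^ D)
        (mul_ne_zero (mul_ne_zero (pow_ne_zero _ hx) (pow_ne_zero _ hx))
          (pow_ne_zero _ (pow_ne_zero _ hx)))]
    have e1 : x ^ a * x⁻¹ ^ a = 1 := by rw [← mul_pow, mul_inv_cancel₀ hx, one_pow]
    have e2 : x ^ b * x⁻¹ ^ b = 1 := by rw [← mul_pow, mul_inv_cancel₀ hx, one_pow]
    congr 1
    · rw [inv_pow x n]
      linear_combination (x ^ b * (x ^ n) ^ D * s * P.eval (x ^ n)⁻¹) * e1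
    · rw [inv_pow x n]
      linear_combination (x ^ a * (x ^ n) ^ D * Q.eval (x ^ n)⁻¹) * e2
  -- the two discs
  let ψ : Bool → ℂ → OnePoint ℂ := fun i x => if i then sinv (x : OnePoint ℂ) else (x : OnePoint ℂ)
  let r : Bool → ℝ := fun i => if i then Real.exp (-w) else 1 / (8 * M ^ 3)
  have hM1 : 1 ≤ M ^ 3 := one_le_pow₀ hM
  have hr0 : 1 / (8 * M ^ 3) ≤ Real.exp (-w) := by
    have h3 : Real.exp (-(Real.log (8 * M ^ 3))) = 1 / (8 * M ^ 3) := by
      rw [Real.exp_neg, Real.exp_log (by positivity), one_div]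
    rw [← h3, Real.exp_le_exp]
    linarith [hc.c4]
  have hr8 : 1 / (8 * M ^ 3) ≤ 1 / 8 := by
    apply one_div_le_one_div_of_le (by norm_num)
    linarith
  have hrpos : 0 < 1 / (8 * M ^ 3) := by positivity
  have hrσ : ∀ i, 1 / (8 * M ^ 3) ≤ r i := by
    intro i
    cases i
    · simp [r]
    · simpa [r] using hr0
  have hexp1 : Real.exp (-w) ≤ 1 := by rw [Real.exp_le_one_iff]; linarith
  have hpM' : ∀ k, ‖(fun k => P.coeff (D - k)) k‖ ≤ M := fun k => h.pM _
  have hqM' : ∀ k, ‖(fun k => Q.coeff (D - k)) k‖ ≤ M := fun k => h.qM _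
  have hkey : ∀ i, ∃ σ' : Bool, ∃ h' : ℂ → ℂ, ∀ x, ‖x‖ ≤ r i →
      f (ψ i x) = ψ σ' (h' x) ∧ ‖h' x‖ ≤ r σ' ∧ ‖h' x‖ ≤ (1 / 2) * ‖x‖ := by
    intro i
    cases i
    · -- near `0`
      have hbd : ∀ x y : ℂ, ‖x‖ ≤ 1 / (8 * M ^ 3) → ‖y‖ ≤ 4 * M ^ 3 * ‖x‖ ^ 2 →
          ‖y‖ ≤ (1 / 2) * ‖x‖ := by
        intro x y hx hy
        refine hy.trans ?_
        have h3 : 4 * M ^ 3 * ‖x‖ ≤ 1 / 2 := by
          rw [le_div_iff₀ (by positivity)] at hx
          linarith
        nlinarith [norm_nonneg x]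
      rcases hab with rfl | rfl
      · refine ⟨true, fun x => x ^ b * pol Q.coeff D (x ^ n) / (s * pol P.coeff D (x ^ n)), ?_⟩
        intro x hx
        simp only [r, Bool.false_eq_true, if_false] at hx
        obtain ⟨g1, g2⟩ := inner_est (n := n) hM h.qM h.pM h.q0 h.p0 hw0.le (by omega : 2 ≤ b) hc.c1
          hs1 (hx.trans hr0)
        have g3 := hbd x _ hx g2
        refine ⟨?_, ?_, g3⟩
        · simp only [ψ, Bool.false_eq_true, if_false, if_true]
          rw [hfz, pow_zero, mul_one, ← pol_coeff hPd, ← pol_coeff hQd,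
            ← pr_ne (mul_ne_zero hs0 g1), sinv_pr (Or.inr (mul_ne_zero hs0 g1))]
        · have := hrσ true
          linarith [norm_nonneg x]
      · refine ⟨false, fun x => x ^ a * pol P.coeff D (x ^ n) / (s⁻¹ * pol Q.coeff D (x ^ n)), ?_⟩
        intro x hx
        simp only [r, Bool.false_eq_true, if_false] at hx
        obtain ⟨g1, g2⟩ := inner_est (n := n) hM h.pM h.qM h.p0 h.q0 hw0.le (by omega : 2 ≤ a) hc.c1
          hsi (hx.trans hr0)
        have g3 := hbd x _ hx g2
        refine ⟨?_, ?_, g3⟩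
        · simp only [ψ, Bool.false_eq_true, if_false]
          rw [hfz, pow_zero, one_mul, ← pol_coeff hPd, ← pol_coeff hQd, pr_ne g1]
          congr 1
          field_simp
        · have := hrσ false
          linarith [norm_nonneg x]
    · -- near `∞`
      have hbd : ∀ x y : ℂ, ‖x‖ ≤ Real.exp (-w) → ‖y‖ ≤
          2 * (((D : ℝ) + 1) * D * M * M ^ 2) * Real.exp (-(((n : ℝ) / 2 - 1) * w)) * ‖x‖ →
          ‖y‖ ≤ 1 / (8 * M ^ 3) ∧ ‖y‖ ≤ (1 / 2) * ‖x‖ := by
        intro x y hx hy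
        have h3 : ‖y‖ ≤ 1 / (8 * M ^ 3) * ‖x‖ :=
          hy.trans (mul_le_mul_of_nonneg_right hc.c2 (norm_nonneg _))
        constructor
        · refine h3.trans ?_
          have : ‖x‖ ≤ 1 := hx.trans hexp1
          nlinarith
        · refine h3.trans ?_
          exact mul_le_mul_of_nonneg_right (by linarith) (norm_nonneg _)
      rcases h.inf with ⟨i1, i2, i3⟩ | ⟨i1, i2, i3⟩
      · refine ⟨true, fun x => x ^ a * pol (fun k => Q.coeff (D - k)) D (x ^ n) /
          (s * x ^ b * pol (fun k => P.coeff (D - k)) D (x ^ n)), ?_⟩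
        intro x hx
        simp only [r, if_true] at hx
        have hq : (fun k => Q.coeff (D - k)) 0 = 0 := by
          simp only [Nat.sub_zero]
          exact Polynomial.coeff_eq_zero_of_natDegree_lt i2
        have hp : M⁻¹ ≤ ‖(fun k => P.coeff (D - k)) 0‖ := by simpa using i3
        obtain ⟨g1, g2⟩ := outer_est (a := a) (b := b) (n := n) hM hqM' hpM' hq hp hw0.le (by omega)
          (by omega) hc.c1 hs1 hx
        obtain ⟨g3, g4⟩ := hbd x _ hx g2
        refine ⟨?_, g3.trans (hrσ true), g4⟩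
        simp only [ψ, if_true]
        by_cases hx0 : x = 0
        · subst hx0
          have e1 : pol (fun k => Q.coeff (D - k)) D ((0 : ℂ) ^ n) = 0 := by
            rw [zero_pow hn0.ne', pol_zero]; exact hq
          rw [e1, mul_zero, zero_div, sinv_zero, hfi]
          have e2 : (de b n Q).coeff d = 0 := by
            apply Polynomial.coeff_eq_zero_of_natDegree_lt
            have h3 : (nu a n s P).natDegree ≤ d := le_max_left _ _
            refine lt_of_lt_of_le ?_ h3
            rw [hnd, hdd, i1]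
            have h4 : (Q.natDegree + 1) * n ≤ D * n := Nat.mul_le_mul_right n i2
            rw [add_mul, one_mul] at h4
            omega
          rw [e2, pr_zero]
        · have hne : s * x ^ b * pol (fun k => P.coeff (D - k)) D (x ^ n) ≠ 0 :=
            mul_ne_zero (mul_ne_zero hs0 (pow_ne_zero _ hx0)) g1
          rw [hinv x hx0, ← pr_ne hne, sinv_pr (Or.inr hne)]
      · refine ⟨false, fun x => x ^ b * pol (fun k => P.coeff (D - k)) D (x ^ n) /
          (s⁻¹ * x ^ a * pol (fun k => Q.coeff (D - k)) D (x ^ n)), ?_⟩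
        intro x hx
        simp only [r, if_true] at hx
        have hp : (fun k => P.coeff (D - k)) 0 = 0 := by
          simp only [Nat.sub_zero]
          exact Polynomial.coeff_eq_zero_of_natDegree_lt i2
        have hq : M⁻¹ ≤ ‖(fun k => Q.coeff (D - k)) 0‖ := by simpa using i3
        obtain ⟨g1, g2⟩ := outer_est (a := b) (b := a) (n := n) hM hpM' hqM' hp hq hw0.le (by omega)
          (by omega) hc.c1 hsi hx
        obtain ⟨g3, g4⟩ := hbd x _ hx g2
        refine ⟨?_, g3.trans (hrσ false), g4⟩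
        simp only [ψ, if_true, Bool.false_eq_true, if_false]
        by_cases hx0 : x = 0
        · subst hx0
          have e1 : pol (fun k => P.coeff (D - k)) D ((0 : ℂ) ^ n) = 0 := by
            rw [zero_pow hn0.ne', pol_zero]; exact hp
          have hlt : (nu a n s P).natDegree < (de b n Q).natDegree := by
            rw [hnd, hdd, i1]
            have h4 : (P.natDegree + 1) * n ≤ D * n := Nat.mul_le_mul_right n i2
            rw [add_mul, one_mul] at h4
            omega
          have hdeq : d = (de b n Q).natDegree := max_eq_right hlt.le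
          rw [e1, mul_zero, zero_div, sinv_zero, hfi]
          have e2 : (nu a n s P).coeff d = 0 :=
            Polynomial.coeff_eq_zero_of_natDegree_lt (by rw [hdeq]; exact hlt)
          have e3 : (de b n Q).coeff d ≠ 0 := by
            rw [hdeq]
            exact Polynomial.leadingCoeff_ne_zero.2 hf.ne
          rw [e2, pr_ne e3, zero_div]
        · have hne : x ^ a * pol (fun k => Q.coeff (D - k)) D (x ^ n) ≠ 0 :=
            mul_ne_zero (pow_ne_zero _ hx0) g1
          rw [hinv x hx0, pr_ne hne]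
          congr 1
          field_simp
  choose σ h' hh using hkey
  have hψc : ∀ i, Continuous (ψ i) := by
    intro i
    cases i
    · simpa [ψ] using OnePoint.continuous_coe (X := ℂ)
    · have := continuous_sinv.comp (OnePoint.continuous_coe (X := ℂ))
      simpa [ψ, Function.comp_def] using this
  have hψo : ∀ i, IsOpenMap (ψ i) := by
    intro i
    cases i
    · simpa [ψ] using (OnePoint.isOpenEmbedding_coe (X := ℂ)).isOpenMap
    · have := sinvHomeo.isOpenMap.comp (OnePoint.isOpenEmbedding_coe (X := ℂ)).isOpenMap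
      simpa [ψ, Function.comp_def, sinvHomeo] using this
  have hdisc : ∀ i x, ‖x‖ ≤ r i → Sinks f (ψ i x) := by
    intro i x hx
    exact two_discs (r := r) (σ := σ) (h := h') (fun i => lt_of_lt_of_le hrpos (hrσ i)) hψc hψo
      (fun i x hx => (hh i x hx).1) (fun i x hx => (hh i x hx).2.1)
      (fun i x hx => (hh i x hx).2.2) hx
  refine ⟨⟨hf.cont, ?_, ?_, ?_⟩, ?_, ?_⟩
  · intro z hz hzw
    have h3 := hdisc true z⁻¹ (by
      simp only [r, if_true]
      rw [norm_inv, Real.exp_neg]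
      have : Real.exp w ≤ ‖z‖ := by
        rw [← Real.exp_log (norm_pos_iff.2 hz), Real.exp_le_exp]
        exact hzw
      exact inv_anti₀ (Real.exp_pos _) this)
    simp only [ψ, if_true] at h3
    rwa [sinv_coe (inv_ne_zero hz), inv_inv] at h3
  · intro z hz hzw
    have h3 := hdisc false z (by
      simp only [r, Bool.false_eq_true, if_false]
      rw [← Real.exp_log (norm_pos_iff.2 hz)]
      refine (Real.exp_le_exp.2 hzw).trans ?_
      rw [Real.exp_neg, Real.exp_log (by positivity), one_div])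
    simpa [ψ] using h3
  · intro z hz hzw
    have hzw' : ‖z‖ ≤ Real.exp (-w) := by
      rw [← Real.exp_log (norm_pos_iff.2 hz), Real.exp_le_exp]
      exact hzw
    obtain ⟨p1, p2, p3⟩ := half_le (D := D) (n := n) hM h.pM hw0.le h.p0 hc.c1 hzw'
    obtain ⟨q1, q2, q3⟩ := half_le (D := D) (n := n) hM h.qM hw0.le h.q0 hc.c1 hzw'
    rw [pol_coeff hPd] at p1 p2 p3
    rw [pol_coeff hQd] at q1 q2 q3
    have hpp : 0 < ‖P.eval (z ^ n)‖ := by linarith
    have hqq : 0 < ‖Q.eval (z ^ n)‖ := by linarith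
    have hpne := norm_pos_iff.1 hpp
    have hqne := norm_pos_iff.1 hqq
    have hdne : z ^ b * Q.eval (z ^ n) ≠ 0 := mul_ne_zero (pow_ne_zero _ hz) hqne
    have hnne : s * z ^ a * P.eval (z ^ n) ≠ 0 :=
      mul_ne_zero (mul_ne_zero hs0 (pow_ne_zero _ hz)) hpne
    refine ⟨s * z ^ a * P.eval (z ^ n) / (z ^ b * Q.eval (z ^ n)), div_ne_zero hnne hdne, ?_, ?_⟩
    · rw [hfz, pr_ne hdne]
    · have hzp : 0 < ‖z‖ := norm_pos_iff.2 hz
      rw [norm_div, norm_mul, norm_mul, norm_mul, norm_pow, norm_pow,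
        Real.log_div (by positivity) (by positivity),
        Real.log_mul (by positivity) (by positivity), Real.log_mul (by positivity) (by positivity),
        Real.log_mul (by positivity) (by positivity), Real.log_pow, Real.log_pow]
      have e1 : Real.log ‖s‖ + a * Real.log ‖z‖ + Real.log ‖P.eval (z ^ n)‖ -
          (b * Real.log ‖z‖ + Real.log ‖Q.eval (z ^ n)‖) -
          (Real.log ‖s‖ + (Real.log ‖P.coeff 0‖ - Real.log ‖Q.coeff 0‖) +
            ((a : ℝ) - b) * Real.log ‖z‖) =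
          (Real.log ‖P.eval (z ^ n)‖ - Real.log ‖P.coeff 0‖) -
            (Real.log ‖Q.eval (z ^ n)‖ - Real.log ‖Q.coeff 0‖) := by ring
      rw [e1]
      refine (abs_sub _ _).trans ?_
      linarith
  · have := hdisc false 0 (by simpa using (hrpos.le.trans (hrσ false)))
    simpa [ψ] using this
  · have := hdisc true 0 (by simpa using (hrpos.le.trans (hrσ true)))
    simpa [ψ, sinv_zero] using this

end

end Run7.h979.SY
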