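import Mathlib
import Pool.Agent.H762R2.RtD
import Pool.Agent.Run7.h979.SY.Map

set_option autoImplicit false

open Set Filter Topology
open scoped OnePoint

namespace Run7.h979.SY

open Pool.Agent.H762R2.Rt Pool.Agent.Helper114.Herman Pool.Agent.Helper114.Konig

/-- The polynomial whose roots are the `n`-th powers of the free critical points. -/
noncomputable def crit (a b n : ℕ) (P Q : Polynomial ℂ) : Polynomial ℂ :=
  Polynomial.C ((a : ℂ) - b) * (P * Q) + Polynomial.C (n : ℂ) * (Polynomial.X * wro P Q)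

/-- The free critical value over a root `ω` has logarithm `log |s| + bet ω`. -/
noncomputable def bet (a b n : ℕ) (P Q : Polynomial ℂ) (ω : ℂ) : ℝ :=
  ((a : ℝ) - b) / n * Real.log ‖ω‖ + Real.log ‖P.eval ω‖ - Real.log ‖Q.eval ω‖

/-- `log |P(0)| - log |Q(0)|`. -/
noncomputable def alp (P Q : Polynomial ℂ) : ℝ :=
  Real.log ‖P.coeff 0‖ - Real.log ‖Q.coeff 0‖

section
variable {D : ℕ} {M : ℝ} {P Q : Polynomial ℂ}

theorem crit_eval (a b n : ℕ) (y : ℂ) : (crit a b n P Q).eval y =
    ((a : ℂ) - b) * (P.eval y * Q.eval y) + n * (y * (wro P Q).eval y) := by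
  simp [crit]

theorem crit_ne (h : Cl D M P Q) (hM : 1 ≤ M) {a b n : ℕ} (hab : a = 0 ∨ b = 0) (h2 : 2 ≤ a + b) :
    crit a b n P Q ≠ 0 := by
  intro h0
  have h1 := crit_eval (P := P) (Q := Q) a b n 0
  rw [h0, Polynomial.eval_zero, zero_mul, mul_zero, add_zero, ← Polynomial.coeff_zero_eq_eval_zero,
    ← Polynomial.coeff_zero_eq_eval_zero] at h1
  have hMi := inv_pos.2 (by linarith : 0 < M)
  have hp : P.coeff 0 ≠ 0 := norm_pos_iff.1 (lt_of_lt_of_le hMi h.p0)
  have hq : Q.coeff 0 ≠ 0 := norm_pos_iff.1 (lt_of_lt_of_le hMi h.q0)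
  have hk : (a : ℂ) - b ≠ 0 := by
    rw [sub_ne_zero]
    intro h3
    have : a = b := by exact_mod_cast h3
    omega
  exact mul_ne_zero hk (mul_ne_zero hp hq) h1.symm

theorem crit_card (h : Cl D M P Q) (hD : 1 ≤ D) (a b n : ℕ) :
    (crit a b n P Q).roots.toFinset.card ≤ 2 * D := by
  have hmax : max P.natDegree Q.natDegree = D := by
    rcases h.inf with h | h <;> omega
  have h1 := wro_natDegree h.cop (by omega)
  rw [hmax] at h1
  have h2 : (crit a b n P Q).natDegree ≤ 2 * D := by
    unfold crit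
    refine (Polynomial.natDegree_add_le _ _).trans (max_le ?_ ?_)
    · refine (Polynomial.natDegree_C_mul_le _ _).trans (Polynomial.natDegree_mul_le.trans ?_)
      have := h.Pd
      have := h.Qd
      omega
    · refine (Polynomial.natDegree_C_mul_le _ _).trans (Polynomial.natDegree_mul_le.trans ?_)
      rw [Polynomial.natDegree_X]
      omega
  exact (Multiset.toFinset_card_le _).trans ((Polynomial.card_roots' _).trans h2)

theorem mul_nu_deriv {a n : ℕ} (hn : 0 < n) (s z : ℂ) :
    z * (nu a n s P).derivative.eval z =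
      s * z ^ a * (a * P.eval (z ^ n) + n * (z ^ n * P.derivative.eval (z ^ n))) := by
  unfold nu
  have e1 : z * (a * z ^ (a - 1)) = a * z ^ a := by
    rcases Nat.eq_zero_or_pos a with rfl | ha
    · simp
    · obtain ⟨m, rfl⟩ : ∃ m, a = m + 1 := ⟨a - 1, by omega⟩
      rw [Nat.add_sub_cancel, pow_succ]
      ring
  have e2 : z * (n * z ^ (n - 1)) = n * z ^ n := by
    obtain ⟨m, rfl⟩ : ∃ m, n = m + 1 := ⟨n - 1, by omega⟩
    rw [Nat.add_sub_cancel, pow_succ]
    ring
  rw [mul_assoc, Polynomial.derivative_C_mul, Polynomial.derivative_mul, Polynomial.derivative_X_pow,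
    Polynomial.derivative_expand]
  simp only [Polynomial.eval_mul, Polynomial.eval_C, Polynomial.expand_eval, Polynomial.eval_add,
    Polynomial.eval_pow, Polynomial.eval_X, Polynomial.eval_natCast, map_natCast]
  linear_combination (s * P.eval (z ^ n)) * e1 + (s * z ^ a * P.derivative.eval (z ^ n)) * e2

theorem mul_de_deriv {b n : ℕ} (hn : 0 < n) (z : ℂ) :
    z * (de b n Q).derivative.eval z =
      z ^ b * (b * Q.eval (z ^ n) + n * (z ^ n * Q.derivative.eval (z ^ n))) := by
  have h := mul_nu_deriv (P := Q) (a := b) hn 1 z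
  have h2 : nu b n 1 Q = de b n Q := by
    unfold nu de
    rw [Polynomial.C_1, one_mul]
  rw [h2, one_mul] at h
  exact h

/-- Hyperbolicity when the linear models of the orbits of all free critical values avoid a
neighbourhood of `0`. -/
theorem hyp_of_good (h : Cl D M P Q) (hM : 1 ≤ M) {a b n : ℕ} (hab : a = 0 ∨ b = 0)
    (h2 : 2 ≤ a + b) (hn : 2 * (a + b) ≤ n) {s : ℂ} (hs1 : M⁻¹ ≤ ‖s‖) (hs2 : ‖s‖ ≤ M) {w : ℝ}
    (hc : Cond D M n w) {N : ℕ}
    (c3 : 4 * (((D : ℝ) + 1) * D * M * M) * Real.exp (-(n * w)) * |(a : ℝ) - b| ^ N ≤ w)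
    (hgood : ∀ ω : ℂ, (crit a b n P Q).eval ω = 0 →
      (∀ j < N, 2 * w ≤ |yy (Real.log ‖s‖ + alp P Q) ((a : ℝ) - b)
        (Real.log ‖s‖ + bet a b n P Q ω) j|) ∧
      Real.log (8 * M ^ 3) + w ≤ |yy (Real.log ‖s‖ + alp P Q) ((a : ℝ) - b)
        (Real.log ‖s‖ + bet a b n P Q ω) N|) :
    Hyp (nu a n s P) (de b n Q) := by
  have hM0 : 0 < M := by linarith
  have hMi : 0 < M⁻¹ := inv_pos.2 hM0
  have hn0 : 0 < n := by omega
  have hs0' : 0 < ‖s‖ := lt_of_lt_of_le hMi hs1
  have hs0 : s ≠ 0 := norm_pos_iff.1 hs0'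
  have hcop := h.coprime hM hab hn0 hs0
  have hQe : Polynomial.expand ℂ n Q ≠ 0 := (Polynomial.expand_ne_zero hn0).2 (h.Q_ne hM)
  have hde : de b n Q ≠ 0 := mul_ne_zero (pow_ne_zero _ Polynomial.X_ne_zero) hQe
  obtain ⟨f, hf, -⟩ := exists_isRat hcop hde
  refine ⟨hcop, f, hf.cont, hf.eval, ?_⟩
  obtain ⟨hfr, hS0, hSi⟩ := frame h hM hab h2 hn hs1 hs2 hc hf
  have hk2 : 2 ≤ |(a : ℝ) - b| := by
    rcases hab with rfl | rfl
    · have : (2 : ℝ) ≤ b := by exact_mod_cast (by omega : 2 ≤ b)
      rw [Nat.cast_zero, zero_sub, abs_neg, abs_of_nonneg (by linarith)]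
      exact this
    · have : (2 : ℝ) ≤ a := by exact_mod_cast (by omega : 2 ≤ a)
      rw [Nat.cast_zero, sub_zero, abs_of_nonneg (by linarith)]
      exact this
  intro c hnot
  induction c using OnePoint.rec with
  | infty => exact hSi
  | coe z =>
    by_cases hz : z = 0
    · subst hz; exact hS0
    -- poles and zeros
    by_cases hd0 : (de b n Q).eval z = 0
    · apply sinks_of_image hf.cont
      set d := max (nu a n s P).natDegree (de b n Q).natDegree with hd
      have hP0 := h.P_ne hM
      have hQ0 := h.Q_ne hM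
      have hnd := nu_natDegree (a := a) hP0 hn0 hs0
      have hdd := de_natDegree (b := b) hQ0 hn0
      have hdpos : 0 < d := by
        have h3 : (nu a n s P).natDegree ≤ d := le_max_left _ _
        have h4 : (de b n Q).natDegree ≤ d := le_max_right _ _
        omega
      have h3 := rat_formula hf hd hdpos (u := z) (v := 1) (Or.inr one_ne_zero)
      rw [pr_one, hom_ne (le_max_right _ _) one_ne_zero, one_pow, one_mul, div_one, hd0,
        pr_zero] at h3
      rw [h3]
      exact hSi
    have hfz := hf.eval z hd0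
    by_cases hn1 : (nu a n s P).eval z = 0
    · apply sinks_of_image hf.cont
      rw [hfz, hn1, zero_div]
      exact hS0
    by_cases hW : (crit a b n P Q).eval (z ^ n) = 0
    · apply sinks_of_image hf.cont
      rw [hfz]
      obtain ⟨g1, g2⟩ := hgood _ hW
      have hlog : Real.log ‖(nu a n s P).eval z / (de b n Q).eval z‖ =
          Real.log ‖s‖ + bet a b n P Q (z ^ n) := by
        rw [nu_eval] at hn1 ⊢
        rw [de_eval] at hd0 ⊢
        have hPz : P.eval (z ^ n) ≠ 0 := right_ne_zero_of_mul hn1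
        have hQz : Q.eval (z ^ n) ≠ 0 := right_ne_zero_of_mul hd0
        have hzp : 0 < ‖z‖ := norm_pos_iff.2 hz
        have hPp := norm_pos_iff.2 hPz
        have hQp := norm_pos_iff.2 hQz
        have hnr : (n : ℝ) ≠ 0 := by exact_mod_cast hn0.ne'
        unfold bet
        rw [norm_div, norm_mul, norm_mul, norm_mul, norm_pow, norm_pow,
          Real.log_div (by positivity) (by positivity),
          Real.log_mul (by positivity) (by positivity),
          Real.log_mul (by positivity) (by positivity),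
          Real.log_mul (by positivity) (by positivity), Real.log_pow, Real.log_pow, norm_pow,
          Real.log_pow]
        field_simp
        ring
      rw [← hlog] at g1 g2
      exact orbit hfr hk2 (by positivity) hc.c4 c3 (div_ne_zero hn1 hd0) g1 g2
    · exfalso
      apply hnot
      have hder := ((nu a n s P).hasStrictDerivAt z).fun_div ((de b n Q).hasStrictDerivAt z) hd0
      have hne : ((nu a n s P).derivative.eval z * (de b n Q).eval z -
          (nu a n s P).eval z * (de b n Q).derivative.eval z) / ((de b n Q).eval z) ^ 2 ≠ 0 := by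
        apply div_ne_zero _ (pow_ne_zero _ hd0)
        intro h0
        have e1 : z * ((nu a n s P).derivative.eval z * (de b n Q).eval z -
            (nu a n s P).eval z * (de b n Q).derivative.eval z) =
            s * z ^ a * z ^ b * (crit a b n P Q).eval (z ^ n) := by
          have e2 := mul_nu_deriv (P := P) (a := a) hn0 s z
          have e3 := mul_de_deriv (Q := Q) (b := b) hn0 z
          rw [crit_eval, wro]
          simp only [Polynomial.eval_mul, Polynomial.eval_sub]
          rw [nu_eval, de_eval]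
          linear_combination (z ^ b * Q.eval (z ^ n)) * e2 - (s * z ^ a * P.eval (z ^ n)) * e3
        rw [h0, mul_zero] at e1
        exact mul_ne_zero (mul_ne_zero (mul_ne_zero hs0 (pow_ne_zero _ hz)) (pow_ne_zero _ hz)) hW
          e1.symm
      obtain ⟨U, hU, hinj⟩ := injOn_of_deriv hder hne
      have hUQ : {x : ℂ | (de b n Q).eval x ≠ 0} ∈ 𝓝 z :=
        (isOpen_ne_fun (de b n Q).continuous continuous_const).mem_nhds hd0
      refine ⟨(fun x : ℂ => (x : OnePoint ℂ)) '' (U ∩ {x : ℂ | (de b n Q).eval x ≠ 0}), ?_, ?_⟩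
      · exact (OnePoint.isOpenEmbedding_coe (X := ℂ)).isOpenMap.image_mem_nhds
          (inter_mem hU hUQ)
      · rintro _ ⟨x, ⟨hx, hxQ⟩, rfl⟩ _ ⟨y, ⟨hy, hyQ⟩, rfl⟩ hxy
        simp only at hxy
        rw [hf.eval x hxQ, hf.eval y hyQ, OnePoint.coe_eq_coe] at hxy
        rw [hinj hx hy hxy]

end

end Run7.h979.SY
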