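import Mathlib
import Pool.Agent.Run7.h979.SY.Crit

set_option autoImplicit false

open Set Filter Topology MeasureTheory

namespace Run7.h979.SY

/-- The slope of the `j`-th iterate of the linear model as a function of `log |s|`. -/
noncomputable def sg (k : ℝ) : ℕ → ℝ
  | 0 => 1
  | j + 1 => 1 + k * sg k j

theorem yy_affine (t α β k : ℝ) (j : ℕ) :
    yy (t + α) k (t + β) j = sg k j * t + yy α k β j := by
  induction j with
  | zero => simp [yy, sg]
  | succ j ih => simp only [yy, sg]; rw [ih]; ring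

theorem sg_closed (k : ℝ) (j : ℕ) : (k - 1) * sg k j = k ^ (j + 1) - 1 := by
  induction j with
  | zero => simp [sg]
  | succ j ih =>
    simp only [sg]
    rw [pow_succ]
    linear_combination k * ih

theorem sg_lower {k : ℝ} (hk : 2 ≤ |k|) (j : ℕ) : |k| ^ j / 3 ≤ |sg k j| := by
  have h1 := congrArg abs (sg_closed k j)
  rw [abs_mul] at h1
  have h2 : |k - 1| ≤ |k| + 1 := by
    have := abs_sub k 1
    rwa [abs_one] at this
  have h3 : |k| ^ (j + 1) - 1 ≤ |k ^ (j + 1) - 1| := by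
    have := abs_sub_abs_le_abs_sub (k ^ (j + 1)) 1
    rwa [abs_one, abs_pow] at this
  have h4 : (1 : ℝ) ≤ |k| ^ j := one_le_pow₀ (by linarith)
  have h5 : 2 * |k| ^ j ≤ |k| ^ (j + 1) := by
    rw [pow_succ]; nlinarith
  have h6 : |k| ^ (j + 1) - 1 ≤ (|k| + 1) * |sg k j| := by
    rw [← h1] at h3
    exact h3.trans (mul_le_mul_of_nonneg_right h2 (abs_nonneg _))
  rw [pow_succ] at h6 h5
  by_contra h
  push Not at h
  nlinarith [abs_nonneg k]

/-- Outside an interval of the parameter `t`, the linear model is outside a neighbourhood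
of `0`. -/
theorem yy_avoid {t α β k ρ : ℝ} (hk : 2 ≤ |k|) (j : ℕ)
    (h : ρ * 3 / |k| ^ j ≤ |t - (-yy α k β j / sg k j)|) : ρ ≤ |yy (t + α) k (t + β) j| := by
  have hp : 0 < |k| ^ j := by
    have : 0 < |k| := by linarith
    positivity
  have hlow := sg_lower hk j
  have hsg : 0 < |sg k j| := by linarith
  have hsg0 : sg k j ≠ 0 := abs_pos.1 hsg
  rw [yy_affine]
  have e1 : sg k j * t + yy α k β j = sg k j * (t - (-yy α k β j / sg k j)) := by
    field_simp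
    ring
  rw [e1, abs_mul]
  calc ρ = (|k| ^ j / 3) * (ρ * 3 / |k| ^ j) := by field_simp
    _ ≤ (|k| ^ j / 3) * |t - (-yy α k β j / sg k j)| := mul_le_mul_of_nonneg_left h (by positivity)
    _ ≤ _ := mul_le_mul_of_nonneg_right hlow (abs_nonneg _)

/-- Intervals of small total length do not cover. -/
theorem exists_good {ι : Type*} (S : Finset ι) (m ρ : ι → ℝ) (hρ : ∀ i ∈ S, 0 ≤ ρ i) {ℓ : ℝ}
    (h : 2 * ∑ i ∈ S, ρ i < ℓ) : ∃ t : ℝ, 0 ≤ t ∧ t ≤ ℓ ∧ ∀ i ∈ S, ρ i ≤ |t - m i| := by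
  by_contra hno
  push Not at hno
  have hcov : Icc (0 : ℝ) ℓ ⊆ ⋃ i ∈ S, Metric.ball (m i) (ρ i) := by
    intro t ht
    obtain ⟨i, hi, hi2⟩ := hno t ht.1 ht.2
    simp only [mem_iUnion]
    exact ⟨i, hi, by rw [Metric.mem_ball, Real.dist_eq]; exact hi2⟩
  have h1 := (measure_mono (μ := volume) hcov).trans (measure_biUnion_finset_le S _)
  rw [Real.volume_Icc, sub_zero] at h1
  have h2 : ∑ i ∈ S, volume (Metric.ball (m i) (ρ i)) = ENNReal.ofReal (∑ i ∈ S, 2 * ρ i) := by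
    rw [ENNReal.ofReal_sum_of_nonneg (fun i hi => by have := hρ i hi; positivity)]
    exact Finset.sum_congr rfl fun i _ => Real.volume_ball _ _
  rw [h2, ← Finset.mul_sum] at h1
  have h3 : 0 ≤ ∑ i ∈ S, ρ i := Finset.sum_nonneg hρ
  have h4 := (ENNReal.ofReal_le_ofReal_iff (by positivity)).1 h1
  linarith

theorem area_annulus {M m ρ : ℝ} (hM : 0 < M) (hρ : 0 ≤ ρ) :
    volume {s : ℂ | s ≠ 0 ∧ ‖s‖ ≤ M ∧ |Real.log ‖s‖ - m| < ρ} ≤
      ENNReal.ofReal (4 * Real.pi * M ^ 2 * ρ) := by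
  set r := Real.exp (m - ρ) with hr
  set R := min M (Real.exp (m + ρ)) with hR
  have hr0 : 0 < r := Real.exp_pos _
  have hR0 : 0 < R := lt_min hM (Real.exp_pos _)
  have hsub : {s : ℂ | s ≠ 0 ∧ ‖s‖ ≤ M ∧ |Real.log ‖s‖ - m| < ρ} ⊆
      Metric.closedBall 0 R \ Metric.closedBall 0 r := by
    rintro s ⟨hs0, hsM, hs⟩
    obtain ⟨h1, h2⟩ := abs_lt.1 hs
    have hsp : 0 < ‖s‖ := norm_pos_iff.2 hs0
    refine ⟨?_, ?_⟩
    · rw [mem_closedBall_zero_iff]
      refine le_min hsM ?_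
      rw [← Real.exp_log hsp, Real.exp_le_exp]
      linarith
    · rw [mem_closedBall_zero_iff, not_le, ← Real.exp_log hsp, hr, Real.exp_lt_exp]
      linarith
  refine (measure_mono hsub).trans ?_
  rcases le_total r R with hrR | hrR
  · rw [measure_sdiff (Metric.closedBall_subset_closedBall hrR)
      Metric.isClosed_closedBall.measurableSet.nullMeasurableSet measure_closedBall_lt_top.ne,
      Complex.volume_closedBall, Complex.volume_closedBall]
    have hpi : (NNReal.pi : ENNReal) = ENNReal.ofReal Real.pi := by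
      rw [ENNReal.ofReal, ← NNReal.coe_real_pi, Real.toNNReal_coe]
    rw [hpi, ← ENNReal.ofReal_pow hR0.le, ← ENNReal.ofReal_pow hr0.le,
      ← ENNReal.ofReal_mul (by positivity), ← ENNReal.ofReal_mul (by positivity),
      ← ENNReal.ofReal_sub _ (by positivity)]
    apply ENNReal.ofReal_le_ofReal
    have hRM : R ≤ M := min_le_left _ _
    have h1 : R * Real.exp (-(2 * ρ)) ≤ r := by
      calc R * Real.exp (-(2 * ρ)) ≤ Real.exp (m + ρ) * Real.exp (-(2 * ρ)) :=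
            mul_le_mul_of_nonneg_right (min_le_right _ _) (Real.exp_pos _).le
        _ = r := by rw [← Real.exp_add, hr]; congr 1; ring
    have h2 : R ^ 2 * Real.exp (-(4 * ρ)) ≤ r ^ 2 := by
      calc R ^ 2 * Real.exp (-(4 * ρ)) = (R * Real.exp (-(2 * ρ))) ^ 2 := by
            rw [mul_pow, ← Real.exp_nat_mul]; congr 2; push_cast; ring
        _ ≤ r ^ 2 := pow_le_pow_left₀ (by positivity) h1 2
    have h3 : 1 - 4 * ρ ≤ Real.exp (-(4 * ρ)) := by
      have := Real.add_one_le_exp (-(4 * ρ))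
      linarith
    have h4 : R ^ 2 - r ^ 2 ≤ 4 * ρ * M ^ 2 := by
      have h5 : R ^ 2 ≤ M ^ 2 := pow_le_pow_left₀ hR0.le hRM 2
      have h6 : R ^ 2 * (1 - 4 * ρ) ≤ r ^ 2 := (mul_le_mul_of_nonneg_left h3 (by positivity)).trans h2
      nlinarith
    have := Real.pi_pos
    nlinarith
  · rw [sdiff_eq_empty.2 (Metric.closedBall_subset_closedBall hrR), measure_empty]
    exact zero_le

theorem area_bad {ι : Type*} (S : Finset ι) (m ρ : ι → ℝ) (hρ : ∀ i ∈ S, 0 ≤ ρ i) {M : ℝ}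
    (hM : 0 < M) :
    volume {s : ℂ | M⁻¹ ≤ ‖s‖ ∧ ‖s‖ ≤ M ∧ ∃ i ∈ S, |Real.log ‖s‖ - m i| < ρ i} ≤
      ENNReal.ofReal (4 * Real.pi * M ^ 2 * ∑ i ∈ S, ρ i) := by
  have hcov : {s : ℂ | M⁻¹ ≤ ‖s‖ ∧ ‖s‖ ≤ M ∧ ∃ i ∈ S, |Real.log ‖s‖ - m i| < ρ i} ⊆
      ⋃ i ∈ S, {s : ℂ | s ≠ 0 ∧ ‖s‖ ≤ M ∧ |Real.log ‖s‖ - m i| < ρ i} := by
    rintro s ⟨h1, h2, i, hi, h3⟩
    simp only [mem_iUnion]
    refine ⟨i, hi, ?_, h2, h3⟩
    have := inv_pos.2 hM
    exact norm_pos_iff.1 (lt_of_lt_of_le this h1)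
  refine (measure_mono hcov).trans ((measure_biUnion_finset_le S _).trans ?_)
  rw [Finset.mul_sum, ENNReal.ofReal_sum_of_nonneg
    (fun i hi => by have := hρ i hi; have := Real.pi_pos; positivity)]
  exact Finset.sum_le_sum fun i hi => area_annulus hM (hρ i hi)

end Run7.h979.SY
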