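import Mathlib
import Pool.Agent.Run7.h979.SY.Meas

set_option autoImplicit false

open Set Filter Topology MeasureTheory

namespace Run7.h979.SY

open Pool.Agent.H762R2.Rt

/-- The choice of the half width `w = 8 log n / n`. -/
theorem cond_of_large (D : ℕ) {M : ℝ} (hM : 1 ≤ M) {n : ℕ}
    (hn : 64 * (((D : ℝ) + 1) * D * M) * M ^ 5 + 256 ≤ n) :
    Cond D M n (8 * Real.log n / n) ∧ 1 ≤ Real.log n ∧ 8 * Real.log n / n ≤ 1 ∧
    4 * (((D : ℝ) + 1) * D * M * M) * Real.exp (-(n * (8 * Real.log n / n))) * (n : ℝ) ^ 2 ≤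
      8 * Real.log n / n := by
  have hM0 : 0 < M := by linarith
  set L := ((D : ℝ) + 1) * D * M with hL
  have hL0 : 0 ≤ L := by positivity
  have hM5 : 1 ≤ M ^ 5 := one_le_pow₀ hM
  have hLM : 64 * L * M ^ 5 ≤ n := by linarith
  have h256 : (256 : ℝ) ≤ n := by
    have : 0 ≤ 64 * L * M ^ 5 := by positivity
    linarith
  have hn0 : (0 : ℝ) < n := by linarith
  have hn1 : (1 : ℝ) ≤ n := by linarith
  have hlog1 : 1 ≤ Real.log n := by
    rw [Real.le_log_iff_exp_le hn0]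
    have := Real.exp_one_lt_d9
    linarith
  have hl2 := Real.log_two_lt_d9
  have hl2' := Real.log_two_gt_d9
  have hlogn : 8 * Real.log n ≤ n := by
    have h1 := Real.log_le_sub_one_of_pos (div_pos hn0 (by norm_num : (0 : ℝ) < 64))
    rw [Real.log_div hn0.ne' (by norm_num), show (64 : ℝ) = 2 ^ 6 by norm_num, Real.log_pow] at h1
    push_cast at h1
    linarith
  have hw1 : 8 * Real.log n / n ≤ 1 := by rw [div_le_one hn0]; exact hlogn
  have hw0 : 0 < 8 * Real.log n / n := by positivity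
  have hnw : (n : ℝ) * (8 * Real.log n / n) = 8 * Real.log n := by field_simp
  have hE : Real.exp (-(n * (8 * Real.log n / n))) = ((n : ℝ) ^ 8)⁻¹ := by
    rw [hnw, Real.exp_neg]
    congr 1
    have : (8 : ℝ) * Real.log n = ((8 : ℕ) : ℝ) * Real.log n := by norm_num
    rw [this, Real.exp_nat_mul, Real.exp_log hn0]
  have hE2 : Real.exp (-(((n : ℝ) / 2 - 1) * (8 * Real.log n / n))) ≤ 3 * (n : ℝ)⁻¹ := by
    have e1 : -(((n : ℝ) / 2 - 1) * (8 * Real.log n / n)) =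
        -(4 * Real.log n) + 8 * Real.log n / n := by
      field_simp
      ring
    rw [e1, Real.exp_add]
    have e2 : Real.exp (8 * Real.log n / n) ≤ 3 := by
      have h1 := Real.exp_le_exp.2 hw1
      have := Real.exp_one_lt_d9
      linarith
    have e3 : Real.exp (-(4 * Real.log n)) ≤ (n : ℝ)⁻¹ := by
      rw [← Real.exp_log (inv_pos.2 hn0), Real.log_inv, Real.exp_le_exp]
      linarith
    calc _ ≤ (n : ℝ)⁻¹ * 3 := mul_le_mul e3 e2 (Real.exp_pos _).le (by positivity)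
      _ = _ := by ring
  have hLn : L * (n : ℝ)⁻¹ * (64 * M ^ 5) ≤ 1 := by
    rw [mul_comm L, mul_assoc, inv_mul_le_iff₀ hn0]
    linarith
  refine ⟨⟨hw0, ?_, ?_, ?_⟩, hlog1, hw1, ?_⟩
  · rw [hE]
    have e1 : ((n : ℝ) ^ 8)⁻¹ ≤ (n : ℝ)⁻¹ := inv_anti₀ hn0 (le_self_pow₀ hn1 (by norm_num))
    have e2 : L * ((n : ℝ) ^ 8)⁻¹ ≤ L * (n : ℝ)⁻¹ := mul_le_mul_of_nonneg_left e1 hL0
    refine e2.trans ?_
    have e3 : L * (n : ℝ)⁻¹ ≤ 1 / (64 * M ^ 5) := by
      rw [le_div_iff₀ (by positivity)]; exact hLn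
    refine e3.trans ?_
    rw [div_le_iff₀ (by positivity)]
    have e4 : 1 ≤ M ^ 4 := one_le_pow₀ hM
    have e5 : M⁻¹ / 2 * (64 * M ^ 5) = 32 * M ^ 4 := by field_simp; norm_num
    rw [e5]; linarith
  · calc 2 * (L * M ^ 2) * Real.exp (-(((n : ℝ) / 2 - 1) * (8 * Real.log n / n))) ≤
          2 * (L * M ^ 2) * (3 * (n : ℝ)⁻¹) := mul_le_mul_of_nonneg_left hE2 (by positivity)
      _ = 6 * M ^ 2 * (L * (n : ℝ)⁻¹) := by ring
      _ ≤ 6 * M ^ 2 * (1 / (64 * M ^ 5)) := by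
          apply mul_le_mul_of_nonneg_left _ (by positivity)
          rw [le_div_iff₀ (by positivity)]; exact hLn
      _ ≤ 1 / (8 * M ^ 3) := by
          rw [mul_one_div, div_le_div_iff₀ (by positivity) (by positivity)]
          have : 0 ≤ M ^ 5 := by positivity
          nlinarith
  · have h8 : Real.log 8 ≤ Real.log (8 * M ^ 3) := by
      apply Real.log_le_log (by norm_num)
      have : 1 ≤ M ^ 3 := one_le_pow₀ hM
      linarith
    have : Real.log 8 = 3 * Real.log 2 := by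
      rw [show (8 : ℝ) = 2 ^ 3 by norm_num, Real.log_pow]; norm_num
    linarith
  · rw [hE]
    have e1 : 4 * (L * M) * ((n : ℝ) ^ 8)⁻¹ * (n : ℝ) ^ 2 ≤ 4 * (L * M) * (n : ℝ)⁻¹ * (n : ℝ)⁻¹ := by
      have e2 : ((n : ℝ) ^ 8)⁻¹ * (n : ℝ) ^ 2 ≤ (n : ℝ)⁻¹ * (n : ℝ)⁻¹ := by
        rw [← mul_inv, inv_mul_le_iff₀ (by positivity), ← div_eq_mul_inv,
          le_div_iff₀ (by positivity)]
        have : (n : ℝ) ^ 2 * (n * n) = (n : ℝ) ^ 4 := by ring
        rw [this]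
        exact pow_le_pow_right₀ hn1 (by norm_num)
      calc _ = 4 * (L * M) * (((n : ℝ) ^ 8)⁻¹ * (n : ℝ) ^ 2) := by ring
        _ ≤ 4 * (L * M) * ((n : ℝ)⁻¹ * (n : ℝ)⁻¹) := mul_le_mul_of_nonneg_left e2 (by positivity)
        _ = _ := by ring
    refine e1.trans ?_
    have e3 : 4 * (L * M) * (n : ℝ)⁻¹ ≤ 1 := by
      have e4 : 0 ≤ L * (n : ℝ)⁻¹ := by positivity
      have e5 : 4 * M ≤ 64 * M ^ 5 := by
        have : M ≤ M ^ 5 := le_self_pow₀ hM (by norm_num)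
        have : 0 ≤ M ^ 5 := by positivity
        linarith
      calc 4 * (L * M) * (n : ℝ)⁻¹ = L * (n : ℝ)⁻¹ * (4 * M) := by ring
        _ ≤ L * (n : ℝ)⁻¹ * (64 * M ^ 5) := mul_le_mul_of_nonneg_left e5 e4
        _ ≤ 1 := hLn
    calc 4 * (L * M) * (n : ℝ)⁻¹ * (n : ℝ)⁻¹ ≤ 1 * (n : ℝ)⁻¹ :=
          mul_le_mul_of_nonneg_right e3 (by positivity)
      _ ≤ 8 * Real.log n / n := by
          rw [one_mul, ← one_div]
          apply div_le_div_of_nonneg_right _ hn0.le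
          linarith

/-- The number of steps. -/
theorem exists_steps {K n : ℕ} (hK : 2 ≤ K) (hKn : K ≤ n) :
    ∃ N : ℕ, n ≤ K ^ N ∧ K ^ N ≤ n ^ 2 := by
  refine ⟨Nat.clog K n, Nat.le_pow_clog (by omega) n, ?_⟩
  have h1 := Nat.pow_pred_clog_lt_self (b := K) (by omega) (x := n) (by omega)
  have h2 : 0 < Nat.clog K n := Nat.clog_pos (by omega) (by omega)
  obtain ⟨m, hm⟩ : ∃ m, Nat.clog K n = m + 1 := ⟨Nat.clog K n - 1, by omega⟩
  rw [hm, Nat.pred_succ] at h1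
  rw [hm, pow_succ, pow_two]
  exact Nat.mul_le_mul h1.le hKn

/-- The sizes of the bad intervals. -/
theorem sum_sizes {k w X : ℝ} (hk : 2 ≤ |k|) (hw : 0 ≤ w) (hX : 0 ≤ X) {N n : ℕ} (hn : 0 < n)
    (hN : (n : ℝ) ≤ |k| ^ N) :
    ∑ j ∈ Finset.range (N + 1), (if j < N then 2 * w else X + w) * 3 / |k| ^ j ≤
      12 * w + 3 * (X + w) / n := by
  have hn0 : (0 : ℝ) < n := by exact_mod_cast hn
  rw [Finset.sum_range_succ]
  have h1 : ∑ j ∈ Finset.range N, (if j < N then 2 * w else X + w) * 3 / |k| ^ j ≤ 12 * w := by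
    calc ∑ j ∈ Finset.range N, (if j < N then 2 * w else X + w) * 3 / |k| ^ j ≤
          ∑ j ∈ Finset.range N, 6 * w * (1 / (2 : ℝ)) ^ j := by
            apply Finset.sum_le_sum
            intro j hj
            rw [if_pos (Finset.mem_range.1 hj), one_div_pow, mul_one_div]
            have e1 : (2 : ℝ) ^ j ≤ |k| ^ j := pow_le_pow_left₀ (by norm_num) hk j
            calc 2 * w * 3 / |k| ^ j ≤ 2 * w * 3 / 2 ^ j :=
                  div_le_div_of_nonneg_left (by positivity) (by positivity) e1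
              _ = _ := by ring
      _ = 6 * w * ∑ j ∈ Finset.range N, (1 / (2 : ℝ)) ^ j := by rw [Finset.mul_sum]
      _ ≤ 6 * w * 2 := mul_le_mul_of_nonneg_left (sum_geometric_two_le N) (by positivity)
      _ = _ := by ring
  have h2 : (if N < N then 2 * w else X + w) * 3 / |k| ^ N ≤ 3 * (X + w) / n := by
    rw [if_neg (lt_irrefl N)]
    calc (X + w) * 3 / |k| ^ N ≤ (X + w) * 3 / n :=
          div_le_div_of_nonneg_left (by positivity) hn0 hN
      _ = _ := by ring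
  linarith

/-- The core statement: outside finitely many intervals of `log |s|` of small total length, all
members of the family are hyperbolic. -/
theorem core (D : ℕ) (hD : 1 ≤ D) (M : ℝ) (hM : 1 ≤ M) : ∃ R : ℝ, 0 < R ∧ ∃ n₁ : ℕ, 256 ≤ n₁ ∧
    ∀ n : ℕ, n₁ ≤ n → ∀ a b : ℕ, (a = 0 ∨ b = 0) → 2 ≤ a + b → 2 * (a + b) ≤ n →
    ∀ P Q : Polynomial ℂ, Cl D M P Q → ∃ S : Finset (ℂ × ℕ), ∃ m ρ : ℂ × ℕ → ℝ,
      (∀ i ∈ S, 0 ≤ ρ i) ∧ ∑ i ∈ S, ρ i ≤ R * (Real.log n / n) ∧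
      ∀ s : ℂ, M⁻¹ ≤ ‖s‖ → ‖s‖ ≤ M → (∀ i ∈ S, ρ i ≤ |Real.log ‖s‖ - m i|) →
        Hyp (nu a n s P) (de b n Q) := by
  have hM0 : 0 < M := by linarith
  have hM1 : 1 ≤ M ^ 3 := one_le_pow₀ hM
  set X := Real.log (8 * M ^ 3) with hX
  have hX0 : 0 ≤ X := Real.log_nonneg (by linarith)
  set n₁ := ⌈64 * (((D : ℝ) + 1) * D * M) * M ^ 5 + 256⌉₊ with hn₁
  have hn₁r : 64 * (((D : ℝ) + 1) * D * M) * M ^ 5 + 256 ≤ n₁ := Nat.le_ceil _
  have hn256 : 256 ≤ n₁ := by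
    have h0 : 0 ≤ 64 * (((D : ℝ) + 1) * D * M) * M ^ 5 := by positivity
    have : (256 : ℝ) ≤ n₁ := by linarith
    exact_mod_cast this
  refine ⟨2 * D * (99 + 3 * X), by positivity, n₁, hn256, ?_⟩
  intro n hn a b hab h2 hna P Q hcl
  have hnr : (n₁ : ℝ) ≤ n := by exact_mod_cast hn
  obtain ⟨hc, hlog, hw1, c3⟩ := cond_of_large D hM (n := n) (by linarith)
  have hn0 : 0 < n := by omega
  have hn0r : (0 : ℝ) < n := by exact_mod_cast hn0
  set w := 8 * Real.log n / n with hw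
  obtain ⟨N, hN1, hN2⟩ := exists_steps (K := a + b) (n := n) h2 (by omega)
  have hkK : |(a : ℝ) - b| = ((a + b : ℕ) : ℝ) := by
    rcases hab with rfl | rfl
    · rw [Nat.cast_zero, zero_sub, abs_neg, zero_add, abs_of_nonneg (Nat.cast_nonneg _)]
    · rw [Nat.cast_zero, sub_zero, add_zero, abs_of_nonneg (Nat.cast_nonneg _)]
  have hk : 2 ≤ |(a : ℝ) - b| := by rw [hkK]; exact_mod_cast h2
  have hN1' : (n : ℝ) ≤ |(a : ℝ) - b| ^ N := by rw [hkK]; exact_mod_cast hN1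
  have hN2' : |(a : ℝ) - b| ^ N ≤ (n : ℝ) ^ 2 := by rw [hkK]; exact_mod_cast hN2
  set k := (a : ℝ) - b with hkdef
  let sz : ℕ → ℝ := fun j => (if j < N then 2 * w else X + w) * 3 / |k| ^ j
  have hsz0 : ∀ j, 0 ≤ sz j := by
    intro j
    have := hc.w0
    simp only [sz]
    split_ifs <;> positivity
  have hcr := crit_ne hcl hM (n := n) hab h2
  refine ⟨(crit a b n P Q).roots.toFinset ×ˢ Finset.range (N + 1),
    fun i => -yy (alp P Q) k (bet a b n P Q i.1) i.2 / sg k i.2, fun i => sz i.2, ?_, ?_, ?_⟩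
  · intro i _
    exact hsz0 _
  · rw [Finset.sum_product]
    simp only [Finset.sum_const, nsmul_eq_mul]
    have h3 := sum_sizes (N := N) hk hc.w0.le hX0 hn0 hN1'
    have h4 : ((crit a b n P Q).roots.toFinset.card : ℝ) ≤ 2 * D := by
      exact_mod_cast crit_card hcl hD a b n
    have h5 : 12 * w + 3 * (X + w) / n ≤ (99 + 3 * X) * (Real.log n / n) := by
      have e1 : 12 * w = 96 * (Real.log n / n) := by rw [hw]; ring
      have e2 : 3 * (X + w) / n ≤ (3 * X + 3) * (Real.log n / n) := by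
        rw [← mul_div_assoc]
        apply div_le_div_of_nonneg_right _ hn0r.le
        nlinarith
      linarith
    have h6 : 0 ≤ (99 + 3 * X) * (Real.log n / n) := by positivity
    calc ((crit a b n P Q).roots.toFinset.card : ℝ) * ∑ j ∈ Finset.range (N + 1), sz j ≤
          (2 * D) * ((99 + 3 * X) * (Real.log n / n)) :=
          mul_le_mul h4 (h3.trans h5) (Finset.sum_nonneg fun j _ => hsz0 j) (by positivity)
      _ = _ := by ring
  · intro s hs1 hs2 hs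
    refine hyp_of_good hcl hM hab h2 hna hs1 hs2 hc (N := N) ?_ ?_
    · refine le_trans ?_ c3
      exact mul_le_mul_of_nonneg_left hN2' (by positivity)
    · intro ω hω
      have hmem : ∀ j ≤ N, (ω, j) ∈ (crit a b n P Q).roots.toFinset ×ˢ Finset.range (N + 1) := by
        intro j hj
        rw [Finset.mem_product, Multiset.mem_toFinset, Polynomial.mem_roots hcr, Finset.mem_range]
        exact ⟨hω, by simpa using Nat.lt_succ_of_le hj⟩
      constructor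
      · intro j hj
        have h3 := hs (ω, j) (hmem j hj.le)
        simp only [sz, if_pos hj] at h3
        exact yy_avoid hk j h3
      · have h3 := hs (ω, N) (hmem N le_rfl)
        simp only [sz, if_neg (lt_irrefl N)] at h3
        exact yy_avoid hk N h3

theorem len_annulus {M m ρ : ℝ} (hM : 0 < M) (hρ : 0 ≤ ρ) :
    volume {x : ℝ | 0 < x ∧ x ≤ M ∧ |Real.log x - m| < ρ} ≤ ENNReal.ofReal (2 * M * ρ) := by
  set r := Real.exp (m - ρ) with hr
  set R := min M (Real.exp (m + ρ)) with hR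
  have hr0 : 0 < r := Real.exp_pos _
  have hR0 : 0 < R := lt_min hM (Real.exp_pos _)
  have hsub : {x : ℝ | 0 < x ∧ x ≤ M ∧ |Real.log x - m| < ρ} ⊆ Icc r R := by
    rintro x ⟨hx0, hxM, hx⟩
    obtain ⟨h1, h2⟩ := abs_lt.1 hx
    refine ⟨?_, le_min hxM ?_⟩
    · rw [← Real.exp_log hx0, hr, Real.exp_le_exp]
      linarith
    · rw [← Real.exp_log hx0, Real.exp_le_exp]
      linarith
  refine (measure_mono hsub).trans ?_
  rw [Real.volume_Icc]
  apply ENNReal.ofReal_le_ofReal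
  have hRM : R ≤ M := min_le_left _ _
  have h1 : R * Real.exp (-(2 * ρ)) ≤ r := by
    calc R * Real.exp (-(2 * ρ)) ≤ Real.exp (m + ρ) * Real.exp (-(2 * ρ)) :=
          mul_le_mul_of_nonneg_right (min_le_right _ _) (Real.exp_pos _).le
      _ = r := by rw [← Real.exp_add, hr]; congr 1; ring
  have h3 : 1 - 2 * ρ ≤ Real.exp (-(2 * ρ)) := by
    have := Real.add_one_le_exp (-(2 * ρ))
    linarith
  have h6 : R * (1 - 2 * ρ) ≤ r := (mul_le_mul_of_nonneg_left h3 hR0.le).trans h1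
  nlinarith

theorem len_bad {ι : Type*} (S : Finset ι) (m ρ : ι → ℝ) (hρ : ∀ i ∈ S, 0 ≤ ρ i) {M : ℝ}
    (hM : 0 < M) :
    volume {x : ℝ | 0 < x ∧ x ≤ M ∧ ∃ i ∈ S, |Real.log x - m i| < ρ i} ≤
      ENNReal.ofReal (2 * M * ∑ i ∈ S, ρ i) := by
  have hcov : {x : ℝ | 0 < x ∧ x ≤ M ∧ ∃ i ∈ S, |Real.log x - m i| < ρ i} ⊆
      ⋃ i ∈ S, {x : ℝ | 0 < x ∧ x ≤ M ∧ |Real.log x - m i| < ρ i} := by
    rintro x ⟨h1, h2, i, hi, h3⟩
    simp only [mem_iUnion]
    exact ⟨i, hi, h1, h2, h3⟩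
  refine (measure_mono hcov).trans ((measure_biUnion_finset_le S _).trans ?_)
  rw [Finset.mul_sum, ENNReal.ofReal_sum_of_nonneg (fun i hi => by have := hρ i hi; positivity)]
  exact Finset.sum_le_sum fun i hi => len_annulus hM (hρ i hi)

/-- The final statement. -/
theorem final (D : ℕ) (hD : 1 ≤ D) (M : ℝ) (hM : 1 ≤ M) : ∃ C : ℝ, 0 < C ∧ ∃ n₀ : ℕ,
    ∀ n : ℕ, n₀ ≤ n → ∀ a b : ℕ, (a = 0 ∨ b = 0) → 2 ≤ a + b → 2 * (a + b) ≤ n →
    ∀ P Q : Polynomial ℂ, Cl D M P Q →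
      (∃ E : Set ℝ, volume E ≤ ENNReal.ofReal (C * (Real.log n / n)) ∧
        ∀ s : ℂ, M⁻¹ ≤ ‖s‖ → ‖s‖ ≤ M → ‖s‖ ∉ E → Hyp (nu a n s P) (de b n Q)) ∧
      volume {s : ℂ | M⁻¹ ≤ ‖s‖ ∧ ‖s‖ ≤ M ∧ ¬ Hyp (nu a n s P) (de b n Q)} ≤
        ENNReal.ofReal (C * (Real.log n / n)) ∧
      ∃ s : ℝ, 1 ≤ s ∧ s ≤ 1 + C * (Real.log n / n) ∧ Hyp (nu a n (s : ℂ) P) (de b n Q) := by
  obtain ⟨R₁, hR₁, n₁, h256, h₁⟩ := core D hD M hM
  obtain ⟨R₂, hR₂, n₂, -, h₂⟩ := core D hD (M + 3) (by linarith)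
  have hM0 : 0 < M := by linarith
  have hlim : Tendsto (fun n : ℕ => 3 * R₂ * (Real.log n / n)) atTop (𝓝 0) := by
    have h1 : Tendsto (fun x : ℝ => Real.log x / x) atTop (𝓝 0) := by
      simpa using Real.isLittleO_log_id_atTop.tendsto_div_nhds_zero
    have h2 := (h1.comp tendsto_natCast_atTop_atTop).const_mul (3 * R₂)
    simpa using h2
  obtain ⟨n₃, hn₃⟩ := eventually_atTop.1 (hlim.eventually (ge_mem_nhds (zero_lt_one' ℝ)))
  have hpi := Real.pi_pos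
  refine ⟨2 * M * R₁ + 4 * Real.pi * M ^ 2 * R₁ + 6 * R₂, by positivity, max n₁ (max n₂ n₃), ?_⟩
  intro n hn a b hab h2 hna P Q hcl
  have hn1 : n₁ ≤ n := le_of_max_le_left hn
  have hn2 : n₂ ≤ n := le_of_max_le_left (le_of_max_le_right hn)
  have hn3 : n₃ ≤ n := le_of_max_le_right (le_of_max_le_right hn)
  have hn256 : (256 : ℝ) ≤ n := by exact_mod_cast h256.trans hn1
  have hlog : 0 < Real.log n := Real.log_pos (by linarith)
  have hv : 0 < Real.log n / n := div_pos hlog (by linarith)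
  obtain ⟨S, m, ρ, hρ, hsum, hS⟩ := h₁ n hn1 a b hab h2 hna P Q hcl
  have hsum0 : 0 ≤ ∑ i ∈ S, ρ i := Finset.sum_nonneg hρ
  refine ⟨⟨{x : ℝ | 0 < x ∧ x ≤ M ∧ ∃ i ∈ S, |Real.log x - m i| < ρ i}, ?_, ?_⟩, ?_, ?_⟩
  · refine (len_bad S m ρ hρ hM0).trans (ENNReal.ofReal_le_ofReal ?_)
    have e1 : 2 * M * ∑ i ∈ S, ρ i ≤ 2 * M * (R₁ * (Real.log n / n)) :=
      mul_le_mul_of_nonneg_left hsum (by positivity)
    have e2 : 0 ≤ (4 * Real.pi * M ^ 2 * R₁ + 6 * R₂) * (Real.log n / n) := by positivity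
    linarith
  · intro s hs1 hs2 hs
    apply hS s hs1 hs2
    intro i hi
    by_contra hlt
    push Not at hlt
    exact hs ⟨lt_of_lt_of_le (inv_pos.2 hM0) hs1, hs2, i, hi, hlt⟩
  · have hsub : {s : ℂ | M⁻¹ ≤ ‖s‖ ∧ ‖s‖ ≤ M ∧ ¬ Hyp (nu a n s P) (de b n Q)} ⊆
        {s : ℂ | M⁻¹ ≤ ‖s‖ ∧ ‖s‖ ≤ M ∧ ∃ i ∈ S, |Real.log ‖s‖ - m i| < ρ i} := by
      rintro s ⟨hs1, hs2, hs⟩
      refine ⟨hs1, hs2, ?_⟩
      by_contra hno
      push Not at hno
      exact hs (hS s hs1 hs2 hno)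
    refine (measure_mono hsub).trans ((area_bad S m ρ hρ hM0).trans (ENNReal.ofReal_le_ofReal ?_))
    have e1 : 4 * Real.pi * M ^ 2 * ∑ i ∈ S, ρ i ≤ 4 * Real.pi * M ^ 2 * (R₁ * (Real.log n / n)) :=
      mul_le_mul_of_nonneg_left hsum (by positivity)
    have e2 : 0 ≤ (2 * M * R₁ + 6 * R₂) * (Real.log n / n) := by positivity
    linarith
  · obtain ⟨S', m', ρ', hρ', hsum', hS'⟩ := h₂ n hn2 a b hab h2 hna P Q
      (hcl.mono hM0 (by linarith))
    have hlt : 2 * ∑ i ∈ S', ρ' i < 3 * R₂ * (Real.log n / n) := by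
      have : 0 < R₂ * (Real.log n / n) := by positivity
      linarith
    obtain ⟨t, ht0, ht1, ht⟩ := exists_good S' m' ρ' hρ' hlt
    have ht1' : t ≤ 1 := ht1.trans (hn₃ n hn3)
    have hexp : Real.exp t ≤ 1 + 2 * t := by
      have h3 := Real.exp_bound_div_one_sub_of_interval' (x := t / 2)
      have h4 : |t| ≤ 1 := by rw [abs_of_nonneg ht0]; exact ht1'
      have h5 := Real.abs_exp_sub_one_sub_id_le h4
      have h6 := (abs_le.1 h5).2
      nlinarith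
    have hexp1 : 1 ≤ Real.exp t := Real.one_le_exp ht0
    have hnorm : ‖((Real.exp t : ℝ) : ℂ)‖ = Real.exp t := by
      rw [Complex.norm_real, Real.norm_eq_abs, abs_of_nonneg (Real.exp_pos t).le]
    refine ⟨Real.exp t, hexp1, ?_, ?_⟩
    · have e1 : 2 * t ≤ 6 * R₂ * (Real.log n / n) := by linarith
      have e2 : 0 ≤ (2 * M * R₁ + 4 * Real.pi * M ^ 2 * R₁) * (Real.log n / n) := by positivity
      linarith
    · apply hS'
      · rw [hnorm]
        have : (M + 3)⁻¹ ≤ 1 := inv_le_one_of_one_le₀ (by linarith)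
        linarith
      · rw [hnorm]; linarith
      · intro i hi
        rw [hnorm, Real.log_exp]
        exact ht i hi

end Run7.h979.SY
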